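import Mathlib

set_option autoImplicit false

/-! Computable signatures and structures, Gödel numbers, the finite Turing jumps of the empty set
and the degree `0^(ω)`. -/

namespace Pool.Agent.J4H74.TW

open FirstOrder FirstOrder.Language Encodable

/-! ### Oracle computability -/

/-- The characteristic function of a set of natural numbers (given by its indicator), as an
oracle. -/
def charFn (A : ℕ → Bool) : ℕ →. ℕ := fun n => Part.some (A n).toNat

/-- `A` is Turing reducible to `B`. -/
def TLe (A B : ℕ → Bool) : Prop := TuringReducible (charFn A) (charFn B)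

/-- `A` and `B` have the same Turing degree. -/
def TEquiv (A B : ℕ → Bool) : Prop := TLe A B ∧ TLe B A

open Classical in
/-- The Turing jump of `A`: the set of all `e` such that for some `k` the `e`-th program halts on
the input consisting of the first `k` bits of `A` and of `e`. (The sets of all `n` such that for
some `k` the `e`-th program halts on the first `k` bits of `A` and `n` are exactly the sets that
are computably enumerable relative to `A`.) -/
noncomputable def turingJump (A : ℕ → Bool) (e : ℕ) : Bool :=
  decide (∃ k, ((Denumerable.ofNat Nat.Partrec.Code e).eval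
    (encode ((List.range k).map A, e))).Dom)

/-- The `n`-th Turing jump of the empty set. -/
noncomputable def jumpN : ℕ → ℕ → Bool
  | 0 => fun _ => false
  | n + 1 => turingJump (jumpN n)

/-- The set `0^(ω) = {⟨n, x⟩ : x ∈ 0^(n)}`. -/
noncomputable def zeroOmega (m : ℕ) : Bool := jumpN m.unpair.1 m.unpair.2

/-! ### Signatures, structures, theories -/

/-- A computable signature: `fn e = some k` means that `e` is a `k`-ary function symbol, and
`rel e = some k` that `e` is a `k`-ary relation symbol. -/
structure Sig where
  fn : ℕ → Option ℕ
  rel : ℕ → Option ℕ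
  comp_fn : Computable fn
  comp_rel : Computable rel

/-- The first-order language with the signature `σ`. -/
def Sig.lang (σ : Sig) : FirstOrder.Language.{0, 0} where
  Functions k := {e : ℕ // σ.fn e = some k}
  Relations k := {e : ℕ // σ.rel e = some k}

/-- Gödel numbers of terms in the variables `x_0, ..., x_(n-1)`. -/
def tcode {σ : Sig} {n : ℕ} : σ.lang.Term (Empty ⊕ Fin n) → ℕ
  | .var (.inl x) => x.elim
  | .var (.inr i) => 2 * i.1
  | .func f ts => 2 * Nat.pair f.1 (encode (List.ofFn fun i => tcode (ts i))) + 1

/-- Gödel numbers of formulas. -/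
def fcode {σ : Sig} : ∀ {n : ℕ}, σ.lang.BoundedFormula Empty n → ℕ
  | _, .falsum => 0
  | _, .equal s t => 4 * Nat.pair (tcode s) (tcode t) + 1
  | _, .rel r ts => 4 * Nat.pair r.1 (encode (List.ofFn fun i => tcode (ts i))) + 2
  | _, .imp φ ψ => 4 * Nat.pair (fcode φ) (fcode ψ) + 3
  | _, .all φ => 4 * fcode φ + 4

open Classical in
/-- The set of the Gödel numbers of the sentences in `T`. -/
noncomputable def codes {σ : Sig} (T : σ.lang.Theory) (m : ℕ) : Bool :=
  decide (∃ φ ∈ T, fcode φ = m)

/-- A structure whose universe is the set `D` of natural numbers is computable: its universe,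
functions and relations (hence its atomic diagram) are computable. -/
structure IsComputable (σ : Sig) (D : ℕ → Bool) [σ.lang.Structure {d : ℕ // D d = true}] :
    Prop where
  dom : Computable D
  fn : ∃ F : ℕ × List ℕ → ℕ, Computable F ∧
    ∀ (k : ℕ) (f : σ.lang.Functions k) (x : Fin k → {d : ℕ // D d = true}),
      (Structure.funMap f x).1 = F (f.1, List.ofFn fun i => (x i).1)
  rel : ∃ G : ℕ × List ℕ → Bool, Computable G ∧
    ∀ (k : ℕ) (r : σ.lang.Relations k) (x : Fin k → {d : ℕ // D d = true}),
      Structure.RelMap r x ↔ G (r.1, List.ofFn fun i => (x i).1) = true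

end Pool.Agent.J4H74.TW
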