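import Pool.Agent.J4H74.TW.Unif

set_option autoImplicit false

/-! If `Z` computes the halting problem and computes the family `B` uniformly, then some set
computable from `Z` is not Turing equivalent to any member of the family. -/

namespace Pool.Agent.J4H74.TW

open Encodable
open Nat.Partrec (Code)
open Pool.Agent.Helper227 Pool.Agent.H685R3

/-- The `u`-th c.e. set of triples `(ρ, n, b)`. -/
def U (u : ℕ) (ρ : List Bool) (n : ℕ) (b : Bool) : Prop :=
  ((Denumerable.ofNat Code u).eval (encode (ρ, n, b))).Dom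

theorem s1_U : S1 fun x : ℕ × List Bool × ℕ × Bool => U x.1 x.2.1 x.2.2.1 x.2.2.2 := by
  have h := S1.comp (f := fun x : ℕ × List Bool × ℕ × Bool =>
    (Denumerable.ofNat Code x.1, encode x.2)) s1_eval
    (((Primrec.ofNat Code).comp Primrec.fst).pair (Primrec.encode.comp Primrec.snd))
  exact h.of_eq fun x => Iff.rfl

theorem exists_U {E : List Bool × ℕ × Bool → Prop} (hE : S1 E) :
    ∃ u, ∀ ρ n b, E (ρ, n, b) ↔ U u ρ n b := by
  have h1 : S1 fun m : ℕ => ∃ a : List Bool × ℕ × Bool, m = encode a ∧ E a := by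
    refine S1.ex (S1.and (S1.of_prim ?_) (hE.comp Primrec.snd))
    exact Primrec.eq.comp Primrec.fst (Primrec.encode.comp Primrec.snd)
  obtain ⟨c, hc⟩ := Nat.Partrec.Code.exists_code.1 h1.re
  refine ⟨encode c, fun ρ n b => ?_⟩
  have h2 : U (encode c) ρ n b ↔ ∃ a : List Bool × ℕ × Bool,
      encode (ρ, n, b) = encode a ∧ E a := by
    rw [U, Denumerable.ofNat_encode, hc]
    simp [Part.assert]
  rw [h2]
  constructor
  · intro h
    exact ⟨_, rfl, h⟩
  · rintro ⟨a, h3, h4⟩
    rw [encode_injective h3]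
    exact h4

/-- The instances `(u, v, e)` of the requirements. -/
abbrev Req : Type := ℕ × ℕ × ℕ

/-- `τ = σ ⌢ i ⌢ ζ` computes (by `v`) the string `ρ`, which computes (by `u`) the value `i` at
`|σ|`. -/
def W (r : Req) (σ : List Bool) (i : Bool) (ζ ρ : List Bool) : Prop :=
  (∀ k < ρ.length, U r.2.1 (σ ++ i :: ζ) k (ρ.getD k false)) ∧ U r.1 ρ σ.length i

theorem s1_W : S1 fun x : (Req × List Bool) × Bool × List Bool × List Bool =>
    W x.1.1 x.1.2 x.2.1 x.2.2.1 x.2.2.2 := by
  refine S1.and ?_ ?_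
  · refine S1.all_lt (p := fun (x : (Req × List Bool) × Bool × List Bool × List Bool) k =>
      U x.1.1.2.1 (x.1.2 ++ x.2.1 :: x.2.2.1) k (x.2.2.2.getD k false))
      (f := fun x => x.2.2.2.length) ?_ (Primrec.list_length.comp
        (Primrec.snd.comp (Primrec.snd.comp Primrec.snd)))
    refine s1_U.comp (f := fun y : ((Req × List Bool) × Bool × List Bool × List Bool) × ℕ =>
      (y.1.1.1.2.1, (y.1.1.2 ++ y.1.2.1 :: y.1.2.2.1, y.2, y.1.2.2.2.getD y.2 false))) ?_
    refine Primrec.pair ?_ (Primrec.pair ?_ (Primrec.pair Primrec.snd ?_))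
    · exact Primrec.fst.comp (Primrec.snd.comp (Primrec.fst.comp (Primrec.fst.comp Primrec.fst)))
    · refine Primrec.list_append.comp (Primrec.snd.comp (Primrec.fst.comp Primrec.fst))
        (Primrec.list_cons.comp (Primrec.fst.comp (Primrec.snd.comp Primrec.fst))
          (Primrec.fst.comp (Primrec.snd.comp (Primrec.snd.comp Primrec.fst))))
    · exact (Primrec.list_getD false).comp
        (Primrec.snd.comp (Primrec.snd.comp (Primrec.snd.comp Primrec.fst))) Primrec.snd
  · refine s1_U.comp (f := fun x : (Req × List Bool) × Bool × List Bool × List Bool =>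
      (x.1.1.1, (x.2.2.2, x.1.2.length, x.2.1))) ?_
    refine Primrec.pair ?_ (Primrec.pair ?_ (Primrec.pair ?_ ?_))
    · exact Primrec.fst.comp (Primrec.fst.comp Primrec.fst)
    · exact Primrec.snd.comp (Primrec.snd.comp Primrec.snd)
    · exact Primrec.list_length.comp (Primrec.snd.comp Primrec.fst)
    · exact Primrec.fst.comp Primrec.snd

/-- There are `ζ`, `ρ` as in `W`. -/
def Q (r : Req) (σ : List Bool) (i : Bool) : Prop := ∃ w : List Bool × List Bool, W r σ i w.1 w.2

theorem s1_Q : S1 fun x : (Req × List Bool) × Bool => Q x.1.1 x.1.2 x.2 := by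
  refine S1.ex (p := fun (x : (Req × List Bool) × Bool) (w : List Bool × List Bool) =>
    W x.1.1 x.1.2 x.2 w.1 w.2) ?_
  exact s1_W.comp (f := fun y : ((Req × List Bool) × Bool) × List Bool × List Bool =>
    (y.1.1, (y.1.2, y.2.1, y.2.2)))
    ((Primrec.fst.comp Primrec.fst).pair ((Primrec.snd.comp Primrec.fst).pair
      ((Primrec.fst.comp Primrec.snd).pair (Primrec.snd.comp Primrec.snd))))

/-- `ρ` is an initial segment of `B`. -/
def Ext (B : ℕ → Bool) (ρ : List Bool) : Prop := ∀ k < ρ.length, B k = ρ.getD k false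

/-- `ρ` is not an initial segment of `B`. -/
def NExt (B : ℕ → Bool) (ρ : List Bool) : Prop := ∃ k, k < ρ.length ∧ B k = !(ρ.getD k false)

theorem nExt_of_not_ext {B : ℕ → Bool} {ρ : List Bool} (h : ¬ Ext B ρ) : NExt B ρ := by
  simp only [Ext, not_forall] at h
  obtain ⟨k, hk, h⟩ := h
  refine ⟨k, hk, ?_⟩
  cases h1 : B k <;> cases h2 : ρ.getD k false <;> simp_all

theorem not_ext_of_nExt {B : ℕ → Bool} {ρ : List Bool} (h : NExt B ρ) : ¬ Ext B ρ := by
  obtain ⟨k, hk, h⟩ := h
  intro h2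
  have := h2 k hk
  rw [this] at h
  revert h
  cases ρ.getD k false <;> simp

/-- The step: `τ` is an admissible extension of `σ` for the requirement `r`. -/
def R (B : ℕ → ℕ → Bool) (y : Req × List Bool) (τ : List Bool) : Prop :=
  (∃ i, (¬ Q y.1 y.2 i) ∧ τ = y.2 ++ [i]) ∨
  (∃ w : Bool × List Bool × List Bool, (W y.1 y.2 w.1 w.2.1 w.2.2 ∧ NExt (B y.1.2.2) w.2.2) ∧
    τ = y.2 ++ w.1 :: w.2.1) ∨
  (∃ w : (List Bool × List Bool) × List Bool × List Bool,
    ((W y.1 y.2 false w.1.1 w.1.2 ∧ W y.1 y.2 true w.2.1 w.2.2) ∧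
      Ext (B y.1.2.2) w.1.2 ∧ Ext (B y.1.2.2) w.2.2) ∧ τ = y.2 ++ false :: w.1.1)

theorem R_total (B : ℕ → ℕ → Bool) (y : Req × List Bool) : ∃ τ, R B y τ := by
  by_cases h0 : Q y.1 y.2 false
  · by_cases h1 : Q y.1 y.2 true
    · obtain ⟨⟨ζ0, ρ0⟩, hw0⟩ := h0
      obtain ⟨⟨ζ1, ρ1⟩, hw1⟩ := h1
      by_cases e0 : Ext (B y.1.2.2) ρ0
      · by_cases e1 : Ext (B y.1.2.2) ρ1
        · exact ⟨_, Or.inr (Or.inr ⟨((ζ0, ρ0), (ζ1, ρ1)), ⟨⟨hw0, hw1⟩, e0, e1⟩, rfl⟩)⟩
        · exact ⟨_, Or.inr (Or.inl ⟨(true, ζ1, ρ1), ⟨hw1, nExt_of_not_ext e1⟩, rfl⟩)⟩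
      · exact ⟨_, Or.inr (Or.inl ⟨(false, ζ0, ρ0), ⟨hw0, nExt_of_not_ext e0⟩, rfl⟩)⟩
    · exact ⟨_, Or.inl ⟨true, h1, rfl⟩⟩
  · exact ⟨_, Or.inl ⟨false, h0, rfl⟩⟩

theorem R_ext {B : ℕ → ℕ → Bool} {y : Req × List Bool} {τ : List Bool} (h : R B y τ) :
    ∃ i ζ, τ = y.2 ++ i :: ζ := by
  rcases h with ⟨i, -, h⟩ | ⟨w, -, h⟩ | ⟨w, -, h⟩
  · exact ⟨i, [], h⟩
  · exact ⟨_, _, h⟩
  · exact ⟨_, _, h⟩

theorem ext_pre (A : ℕ → Bool) (s : ℕ) : Ext A (pre A s) :=
  fun k hk => (pre_getD A _ _ _ (by simpa using hk)).symm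

/-- An admissible extension meets the requirement. -/
theorem R_meets {B : ℕ → ℕ → Bool} {r : Req} {σ τ : List Bool} (h : R B (r, σ) τ)
    {A : ℕ → Bool} (hA : pre A τ.length = τ)
    (hu : ∀ n b, A n = b ↔ ∃ s, U r.1 (pre (B r.2.2) s) n b)
    (mv : ∀ σ τ n b, σ <+: τ → U r.2.1 σ n b → U r.2.1 τ n b)
    (hv : ∀ n b, B r.2.2 n = b ↔ ∃ s, U r.2.1 (pre A s) n b) : False := by
  have hW : ∀ (i : Bool) (ζ ρ : List Bool), τ = σ ++ i :: ζ → W r σ i ζ ρ → Ext (B r.2.2) ρ := by
    intro i ζ ρ h1 h2 k hk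
    refine (hv _ _).2 ⟨τ.length, ?_⟩
    rw [hA, h1]
    exact h2.1 k hk
  have hE : ∀ (i : Bool) (ζ ρ : List Bool), W r σ i ζ ρ → Ext (B r.2.2) ρ → A σ.length = i := by
    intro i ζ ρ h1 h2
    refine (hu _ _).2 ⟨ρ.length, ?_⟩
    have h3 : pre (B r.2.2) ρ.length = ρ := by
      refine List.ext_getElem (by simp) fun j h5 h6 => ?_
      rw [getElem_pre, h2 j h6]
      simp [h6]
    rw [h3]
    exact h1.2
  rcases h with ⟨i, h1, h2⟩ | ⟨w, ⟨h1, h2⟩, h3⟩ | ⟨w, ⟨⟨h1, h2⟩, h3, h4⟩, -⟩
  · -- no extension works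
    simp only at h1 h2
    have hi : A σ.length = i := by
      have h3 : τ[σ.length]? = some i := by rw [h2]; simp
      rw [← hA, pre_getElem? A _ _ (by rw [h2]; simp)] at h3
      exact Option.some.inj h3
    obtain ⟨s, hs⟩ := (hu _ _).1 hi
    -- the string `ρ`
    have h3 : ∀ k, ∃ t, U r.2.1 (pre A t) k (B r.2.2 k) := fun k => (hv _ _).1 rfl
    choose t ht using h3
    let m : ℕ := (Finset.range s).sup t + τ.length
    have hm : τ.length ≤ m := Nat.le_add_left _ _
    have h4 : τ <+: pre A m := by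
      rw [← hA]
      have := pre_prefix A hm
      simpa using this
    obtain ⟨ζ, hζ⟩ := h4
    apply h1
    refine ⟨(ζ, pre (B r.2.2) s), ?_, hs⟩
    intro k hk
    have h5 : σ ++ i :: ζ = pre A m := by rw [← hζ, h2]; simp
    simp only
    rw [h5, pre_getD _ _ _ _ (by simpa using hk)]
    refine mv _ _ _ _ (pre_prefix A ?_) (ht k)
    have : t k ≤ (Finset.range s).sup t := Finset.le_sup (f := t) (by simpa using hk)
    omega
  · exact not_ext_of_nExt h2 (hW _ _ _ h3 h1)
  · have a := hE _ _ _ h1 h3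
    have b := hE _ _ _ h2 h4
    rw [a] at b
    cases b

section main

variable {Z : ℕ → Bool} {B : ℕ → ℕ → Bool}

theorem SI_not_s1 (hZ : TLe (jump fun _ => false) Z) {α : Type} [Primcodable α] {p : α → Prop}
    (hp : S1 p) : SI Z fun a => ¬ p a :=
  ((SI.of_s1 (B := fun _ => false) hp).decide_jump.2).trans hZ

theorem SI_Ext (hB : SI Z fun x : ℕ × ℕ × Bool => B x.1 x.2.1 = x.2.2) :
    SI Z fun x : ℕ × List Bool => Ext (B x.1) x.2 := by
  refine SI.all_lt (α := ℕ × List Bool) (p := fun x k => B x.1 k = x.2.getD k false)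
    (f := fun x => x.2.length) ?_ (Primrec.list_length.comp Primrec.snd)
  exact hB.comp (f := fun y : (ℕ × List Bool) × ℕ => (y.1.1, (y.2, y.1.2.getD y.2 false)))
    ((Primrec.fst.comp Primrec.fst).pair (Primrec.snd.pair
      ((Primrec.list_getD false).comp (Primrec.snd.comp Primrec.fst) Primrec.snd)))

theorem SI_NExt (hB : SI Z fun x : ℕ × ℕ × Bool => B x.1 x.2.1 = x.2.2) :
    SI Z fun x : ℕ × List Bool => NExt (B x.1) x.2 := by
  refine SI.ex (p := fun (x : ℕ × List Bool) (k : ℕ) => k < x.2.length ∧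
    B x.1 k = !(x.2.getD k false)) (SI.and (SI.of_prim ?_) ?_)
  · exact Primrec.nat_lt.comp Primrec.snd (Primrec.list_length.comp (Primrec.snd.comp Primrec.fst))
  · exact hB.comp (f := fun y : (ℕ × List Bool) × ℕ => (y.1.1, (y.2, !(y.1.2.getD y.2 false))))
      ((Primrec.fst.comp Primrec.fst).pair (Primrec.snd.pair
        (Primrec.not.comp ((Primrec.list_getD false).comp (Primrec.snd.comp Primrec.fst)
          Primrec.snd))))

theorem SI_R (hZ : TLe (jump fun _ => false) Z)
    (hB : SI Z fun x : ℕ × ℕ × Bool => B x.1 x.2.1 = x.2.2) :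
    SI Z fun x : (Req × List Bool) × List Bool => R B x.1 x.2 := by
  refine SI.or ?_ (SI.or ?_ ?_)
  · refine SI.ex (p := fun (x : (Req × List Bool) × List Bool) (i : Bool) =>
      (¬ Q x.1.1 x.1.2 i) ∧ x.2 = x.1.2 ++ [i]) (SI.and ?_ (SI.of_prim ?_))
    · exact (SI_not_s1 hZ s1_Q).comp
        (f := fun y : ((Req × List Bool) × List Bool) × Bool => (y.1.1, y.2))
        ((Primrec.fst.comp Primrec.fst).pair Primrec.snd)
    · exact Primrec.eq.comp (Primrec.snd.comp Primrec.fst)
        (Primrec.list_append.comp (Primrec.snd.comp (Primrec.fst.comp Primrec.fst))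
          (Primrec.list_cons.comp Primrec.snd (Primrec.const [])))
  · refine SI.ex (p := fun (x : (Req × List Bool) × List Bool) (w : Bool × List Bool × List Bool) =>
      (W x.1.1 x.1.2 w.1 w.2.1 w.2.2 ∧ NExt (B x.1.1.2.2) w.2.2) ∧ x.2 = x.1.2 ++ w.1 :: w.2.1)
      (SI.and (SI.and (SI.of_s1 ?_) ?_) (SI.of_prim ?_))
    · exact s1_W.comp (f := fun y : ((Req × List Bool) × List Bool) × Bool × List Bool × List Bool =>
        (y.1.1, y.2)) ((Primrec.fst.comp Primrec.fst).pair Primrec.snd)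
    · exact (SI_NExt hB).comp
        (f := fun y : ((Req × List Bool) × List Bool) × Bool × List Bool × List Bool =>
          (y.1.1.1.2.2, y.2.2.2))
        ((Primrec.snd.comp (Primrec.snd.comp (Primrec.fst.comp (Primrec.fst.comp
          Primrec.fst)))).pair (Primrec.snd.comp (Primrec.snd.comp Primrec.snd)))
    · exact Primrec.eq.comp (Primrec.snd.comp Primrec.fst)
        (Primrec.list_append.comp (Primrec.snd.comp (Primrec.fst.comp Primrec.fst))
          (Primrec.list_cons.comp (Primrec.fst.comp Primrec.snd)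
            (Primrec.fst.comp (Primrec.snd.comp Primrec.snd))))
  · refine SI.ex (p := fun (x : (Req × List Bool) × List Bool)
      (w : (List Bool × List Bool) × List Bool × List Bool) =>
      ((W x.1.1 x.1.2 false w.1.1 w.1.2 ∧ W x.1.1 x.1.2 true w.2.1 w.2.2) ∧
        Ext (B x.1.1.2.2) w.1.2 ∧ Ext (B x.1.1.2.2) w.2.2) ∧ x.2 = x.1.2 ++ false :: w.1.1)
      (SI.and (SI.and (SI.and (SI.of_s1 ?_) (SI.of_s1 ?_)) (SI.and ?_ ?_)) (SI.of_prim ?_))
    · exact s1_W.comp (f := fun y : ((Req × List Bool) × List Bool) ×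
        (List Bool × List Bool) × List Bool × List Bool => (y.1.1, (false, y.2.1)))
        ((Primrec.fst.comp Primrec.fst).pair ((Primrec.const false).pair
          (Primrec.fst.comp Primrec.snd)))
    · exact s1_W.comp (f := fun y : ((Req × List Bool) × List Bool) ×
        (List Bool × List Bool) × List Bool × List Bool => (y.1.1, (true, y.2.2)))
        ((Primrec.fst.comp Primrec.fst).pair ((Primrec.const true).pair
          (Primrec.snd.comp Primrec.snd)))
    · exact (SI_Ext hB).comp (f := fun y : ((Req × List Bool) × List Bool) ×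
        (List Bool × List Bool) × List Bool × List Bool => (y.1.1.1.2.2, y.2.1.2))
        ((Primrec.snd.comp (Primrec.snd.comp (Primrec.fst.comp (Primrec.fst.comp
          Primrec.fst)))).pair (Primrec.snd.comp (Primrec.fst.comp Primrec.snd)))
    · exact (SI_Ext hB).comp (f := fun y : ((Req × List Bool) × List Bool) ×
        (List Bool × List Bool) × List Bool × List Bool => (y.1.1.1.2.2, y.2.2.2))
        ((Primrec.snd.comp (Primrec.snd.comp (Primrec.fst.comp (Primrec.fst.comp
          Primrec.fst)))).pair (Primrec.snd.comp (Primrec.snd.comp Primrec.snd)))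
    · exact Primrec.eq.comp (Primrec.snd.comp Primrec.fst)
        (Primrec.list_append.comp (Primrec.snd.comp (Primrec.fst.comp Primrec.fst))
          (Primrec.list_cons.comp (Primrec.const false)
            (Primrec.fst.comp (Primrec.fst.comp Primrec.snd))))

/-- The requirement treated at stage `s`. -/
def req (s : ℕ) : Req := (s.unpair.1, s.unpair.2.unpair.1, s.unpair.2.unpair.2)

theorem primrec_req : Primrec req := by
  refine Primrec.pair (Primrec.fst.comp Primrec.unpair) (Primrec.pair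
    (Primrec.fst.comp (Primrec.unpair.comp (Primrec.snd.comp Primrec.unpair)))
    (Primrec.snd.comp (Primrec.unpair.comp (Primrec.snd.comp Primrec.unpair))))

theorem req_pair (r : Req) : req (Nat.pair r.1 (Nat.pair r.2.1 r.2.2)) = r := by
  simp [req]

/-- **Diagonalisation.** -/
theorem exists_not_equiv (hZ : TLe (jump fun _ => false) Z)
    (hB : SI Z fun x : ℕ × ℕ × Bool => B x.1 x.2.1 = x.2.2) :
    ∃ A : ℕ → Bool, TLe A Z ∧ ∀ e, ¬ (TLe A (B e) ∧ TLe (B e) A) := by
  have hR : SI Z fun x : (ℕ × List Bool) × List Bool => R B (req x.1.1, x.1.2) x.2 :=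
    (SI_R hZ hB).comp (f := fun x : (ℕ × List Bool) × List Bool => ((req x.1.1, x.1.2), x.2))
      (((primrec_req.comp (Primrec.fst.comp Primrec.fst)).pair
        (Primrec.snd.comp Primrec.fst)).pair Primrec.snd)
  obtain ⟨c, hc, hcs⟩ := SI_unif (R := fun (y : ℕ × List Bool) τ => R B (req y.1, y.2) τ) hR
    (fun a => R_total B _)
  let f : ℕ → List Bool := fun n => Nat.rec [] (fun n σ => c (n, σ)) n
  have hf := SI_iter (f := f) hcs [] rfl (fun _ => rfl)
  have hfs : ∀ n, R B (req n, f n) (f (n + 1)) := fun n => hc (n, f n)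
  have hfp : ∀ n, ∃ i ζ, f (n + 1) = f n ++ i :: ζ := fun n => R_ext (hfs n)
  have hlen : ∀ n, n ≤ (f n).length := by
    intro n
    induction n with
    | zero => exact Nat.zero_le _
    | succ n ih =>
      obtain ⟨i, ζ, h⟩ := hfp n
      rw [h]
      simp
      omega
  have hmono : ∀ n m, n ≤ m → f n <+: f m := by
    intro n m h
    induction h with
    | refl => exact List.prefix_refl _
    | step h ih =>
      obtain ⟨i, ζ, h⟩ := hfp _
      rw [h]
      exact ih.trans (List.prefix_append _ _)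
  let A : ℕ → Bool := fun n => (f (n + 1)).getD n false
  have hget : ∀ n k, k < (f n).length → (f n).getD k false = A k := by
    intro n k hk
    have h1 : k < (f (k + 1)).length := hlen (k + 1)
    rcases le_total n (k + 1) with h | h
    · obtain ⟨ρ, hρ⟩ := hmono _ _ h
      change _ = (f (k + 1)).getD k false
      rw [← hρ, List.getD_append _ _ _ _ hk]
    · obtain ⟨ρ, hρ⟩ := hmono _ _ h
      change _ = (f (k + 1)).getD k false
      rw [← hρ, List.getD_append _ _ _ _ h1]
  have hpre : ∀ n, pre A (f n).length = f n := by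
    intro n
    refine List.ext_getElem (by simp) fun j h5 h6 => ?_
    rw [getElem_pre, ← hget n j h6]
    simp [h6]
  refine ⟨A, ?_, ?_⟩
  · rw [tLe_iff_SI]
    have h1 : SI Z fun x : ℕ × Bool => ∃ τ : List Bool, f (x.1 + 1) = τ ∧
        τ.getD x.1 false = x.2 := by
      refine SI.ex (p := fun (x : ℕ × Bool) (τ : List Bool) => f (x.1 + 1) = τ ∧
        τ.getD x.1 false = x.2) (SI.and ?_ (SI.of_prim ?_))
      · exact hf.comp (f := fun y : (ℕ × Bool) × List Bool => (y.1.1 + 1, y.2))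
          ((Primrec.succ.comp (Primrec.fst.comp Primrec.fst)).pair Primrec.snd)
      · exact Primrec.eq.comp ((Primrec.list_getD false).comp Primrec.snd
          (Primrec.fst.comp Primrec.fst)) (Primrec.snd.comp Primrec.fst)
    refine h1.of_eq fun x => ?_
    constructor
    · rintro ⟨τ, rfl, h⟩
      exact h
    · intro h
      exact ⟨_, rfl, h⟩
  · rintro e ⟨h1, h2⟩
    obtain ⟨E, hE, mE, eE⟩ := tLe_iff.1 h1
    obtain ⟨F, hF, mF, eF⟩ := tLe_iff.1 h2
    obtain ⟨u, hu⟩ := exists_U hE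
    obtain ⟨v, hv⟩ := exists_U hF
    have h3 := hfs (Nat.pair u (Nat.pair v e))
    rw [req_pair (u, v, e)] at h3
    refine R_meets h3 (hpre (Nat.pair u (Nat.pair v e) + 1)) ?_ ?_ ?_
    · intro n b
      simp only [← hu]
      exact eE n b
    · intro σ τ n b h
      simp only [← hv]
      exact mF σ τ n b h
    · intro n b
      simp only [← hv]
      exact eF n b

end main

end Pool.Agent.J4H74.TW
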