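import Pool.Agent.J4H74.TW.Unf
import Pool.Agent.J4H74.TW.Diag

set_option autoImplicit false

/-! The theory of a computable structure is many-one reducible to `0^(ω)`, uniformly; the main
theorem. -/

namespace Pool.Agent.J4H74.TW

open FirstOrder FirstOrder.Language Encodable
open Nat.Partrec (Code)
open Pool.Agent.Helper227 (S1 SI pre jump)
open Pool.Agent.H685R3 (US)

theorem turingJump_eq (A : ℕ → Bool) : turingJump A = jump A := by
  funext e
  rw [Bool.eq_iff_iff, Pool.Agent.Helper227.jump_eq_true]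
  simp only [turingJump, decide_eq_true_eq]
  rfl

theorem jumpN_succ (n : ℕ) : jumpN (n + 1) = jump (jumpN n) := by
  rw [jumpN, turingJump_eq]

theorem tLe_eq (A B : ℕ → Bool) : TLe A B = Pool.Agent.Helper227.TLe A B := rfl

/-! ### Evaluation of indices -/

theorem s1_graph0 : S1 fun x : (Code × ℕ) × ℕ => x.2 ∈ x.1.1.eval x.1.2 := by
  have h : S1 fun x : (Code × ℕ) × ℕ => ∃ k : ℕ,
      Nat.Partrec.Code.evaln k x.1.1 x.1.2 = some x.2 := by
    refine S1.ex (p := fun (x : (Code × ℕ) × ℕ) (k : ℕ) => Nat.Partrec.Code.evaln k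
      x.1.1 x.1.2 = some x.2) (S1.of_prim ?_)
    have h1 : Primrec fun y : ((Code × ℕ) × ℕ) × ℕ => Nat.Partrec.Code.evaln y.2 y.1.1.1 y.1.1.2 :=
      Primrec.comp (f := fun a : (ℕ × Code) × ℕ => Nat.Partrec.Code.evaln a.1.1 a.1.2 a.2)
        (g := fun y : ((Code × ℕ) × ℕ) × ℕ => ((y.2, y.1.1.1), y.1.1.2))
        Nat.Partrec.Code.primrec_evaln
        ((Primrec.snd.pair (Primrec.fst.comp (Primrec.fst.comp Primrec.fst))).pair
          (Primrec.snd.comp (Primrec.fst.comp Primrec.fst)))
    exact Primrec.eq.comp h1 (Primrec.option_some.comp (Primrec.snd.comp Primrec.fst))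
  refine h.of_eq fun x => ?_
  rw [Nat.Partrec.Code.evaln_complete]
  simp only [Option.mem_def]

/-- The graph of the universal function. -/
theorem s1_eval_graph : S1 fun x : Zt × ℕ =>
    x.2 ∈ (Denumerable.ofNat Code x.1.1).eval (encode x.1.2) :=
  s1_graph0.comp (f := fun x : Zt × ℕ => ((Denumerable.ofNat Code x.1.1, encode x.1.2), x.2))
    ((((Primrec.ofNat Code).comp (Primrec.fst.comp Primrec.fst)).pair
      (Primrec.encode.comp (Primrec.snd.comp Primrec.fst))).pair Primrec.snd)

/-- The value of the function with index `z.1` at `z.2` belongs to the oracle (`b = true`) or does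
not belong to it (`b = false`). -/
def GG (b : Bool) (B : ℕ → Bool) (z : Zt) : Prop :=
  ∃ y, y ∈ (Denumerable.ofNat Code z.1).eval (encode z.2) ∧ B y = b

theorem us_GG (b : Bool) : US (GG b) := by
  refine US.ex (p := fun B (z : Zt) (y : ℕ) =>
    y ∈ (Denumerable.ofNat Code z.1).eval (encode z.2) ∧ B y = b) (US.and (US.of_s1 ?_) ?_)
  · exact s1_eval_graph
  · exact US.query.comp (f := fun w : Zt × ℕ => (w.2, b)) (Primrec.snd.pair (Primrec.const b))

/-- First half of a step. -/
def Q1 (D : ℕ → Bool) (B : ℕ → Bool) (w : Zt × Bool) : Prop :=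
  (w.2 = false ∧ GG true B w.1) ∨ (w.2 = true ∧ ∃ d, D d = true ∧
    GG false B (w.1.1, (3, w.1.2.2.1, w.1.2.2.2.1, w.1.2.2.2.2.1 ++ [d], 0)))

theorem us_Q1 {D : ℕ → Bool} (hD : Computable D) : US (Q1 D) := by
  refine US.or (US.and (US.of_prim ?_) ?_) (US.and (US.of_prim ?_) ?_)
  · exact Primrec.eq.comp Primrec.snd (Primrec.const false)
  · exact (us_GG true).comp Primrec.fst
  · exact Primrec.eq.comp Primrec.snd (Primrec.const true)
  · refine US.ex (p := fun B (w : Zt × Bool) (d : ℕ) => D d = true ∧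
      GG false B (w.1.1, (3, w.1.2.2.1, w.1.2.2.2.1, w.1.2.2.2.2.1 ++ [d], 0)))
      (US.and (US.of_s1 ?_) ?_)
    · exact s1_eq (hD.comp Computable.snd) (Computable.const true)
    · refine (us_GG false).comp (f := fun w : (Zt × Bool) × ℕ =>
        (w.1.1.1, (3, w.1.1.2.2.1, w.1.1.2.2.2.1, w.1.1.2.2.2.2.1 ++ [w.2], 0))) ?_
      have h0 : Primrec fun w : (Zt × Bool) × ℕ => w.1.1 := Primrec.fst.comp Primrec.fst
      exact (pe.comp h0).pair (mkX (Primrec.const 3) (pm.comp h0) (pk.comp h0)
        (Primrec.list_append.comp (pa.comp h0)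
          (Primrec.list_cons.comp Primrec.snd (Primrec.const []))) (Primrec.const 0))

section

variable (σ : Sig) (D : ℕ → Bool) [σ.lang.Structure {d : ℕ // D d = true}]

theorem holds_reduce (h : IsComputable σ D) :
    ∃ f : ℕ × X → ℕ, Primrec f ∧ ∀ (n : ℕ) (x : X), x.2.1 < n →
      (Holds σ D x ↔ jumpN (2 * n) (f (n, x)) = true) := by
  obtain ⟨hD, ⟨F, hFc, hF⟩, ⟨R, hRc, hR⟩⟩ := h
  obtain ⟨f1, hf1, e1⟩ := (us_Q1 hD).to_jump
  have hG : US fun B (z : Zt) => B (f1 (z, false)) = true :=
    US.query.comp (f := fun z : Zt => (f1 (z, false), true))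
      ((hf1.comp (Primrec.id.pair (Primrec.const false))).pair (Primrec.const true))
  have hNG : US fun B (z : Zt) => B (f1 (z, false)) = false :=
    US.query.comp (f := fun z : Zt => (f1 (z, false), false))
      ((hf1.comp (Primrec.id.pair (Primrec.const false))).pair (Primrec.const false))
  have hA : US fun B (w : ℕ × ℕ × ℕ × List ℕ) =>
      B (f1 ((w.1, (3, w.2.1, w.2.2.1, w.2.2.2, 0)), true)) = false := by
    refine US.query.comp (f := fun w : ℕ × ℕ × ℕ × List ℕ =>
      (f1 ((w.1, (3, w.2.1, w.2.2.1, w.2.2.2, 0)), true), false))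
      ((hf1.comp (Primrec.pair ?_ (Primrec.const true))).pair (Primrec.const false))
    exact Primrec.fst.pair (mkX (Primrec.const 3) (Primrec.fst.comp Primrec.snd)
      (Primrec.fst.comp (Primrec.snd.comp Primrec.snd))
      (Primrec.snd.comp (Primrec.snd.comp Primrec.snd)) (Primrec.const 0))
  obtain ⟨f2, hf2, e2⟩ := (us_Unf σ D F R hD hFc hRc hG hNG hA).to_jump
  -- the index of `x ↦ f2 (e, x)`
  have hc : ∃ c : Code, ∀ (e : ℕ) (x : X), c.eval (Nat.pair e (encode x)) =
      Part.some (f2 (e, x)) := by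
    have h1 : Computable fun n : ℕ =>
        f2 (n.unpair.1, (decode (α := X) n.unpair.2).getD (0, 0, 0, [], 0)) := by
      refine (hf2.comp (Primrec.pair (Primrec.fst.comp Primrec.unpair) ?_)).to_comp
      exact Primrec.option_getD.comp (Primrec.decode.comp (Primrec.snd.comp Primrec.unpair))
        (Primrec.const _)
    obtain ⟨c, hc⟩ := Nat.Partrec.Code.exists_code.1 (Partrec.nat_iff.1 h1.partrec)
    refine ⟨c, fun e x => ?_⟩
    rw [hc]
    have h2 : decode (α := X) (encode x) = some x := encodek x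
    simp only [PFun.coe_val, Nat.unpair_pair]
    rw [h2]
    rfl
  obtain ⟨c, hc⟩ := hc
  let hh : ℕ → ℕ := fun e => encode (Code.curry c e)
  have hhh : Primrec hh := by
    have h2 : Primrec fun e : ℕ => Code.curry c e :=
      Nat.Partrec.Code.primrec₂_curry.comp (Primrec.const c) Primrec.id
    exact Primrec.encode.comp h2
  have hhe : ∀ (e : ℕ) (x : X), (Denumerable.ofNat Code (hh e)).eval (encode x) =
      Part.some (f2 (e, x)) := by
    intro e x
    simp only [hh, Denumerable.ofNat_encode, Nat.Partrec.Code.eval_curry]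
    exact hc e x
  let E : ℕ → ℕ := fun n => Nat.rec (encode Code.zero) (fun _ e => hh e) n
  have hE : Primrec E := Primrec.nat_rec₁ (encode Code.zero) (hhh.comp Primrec.snd).to₂
  have hE0 : E 0 = encode Code.zero := rfl
  have hEs : ∀ n, E (n + 1) = hh (E n) := fun _ => rfl
  have htot : ∀ (n : ℕ) (x : X), ∃ y, (Denumerable.ofNat Code (E n)).eval (encode x) =
      Part.some y := by
    intro n x
    cases n with
    | zero =>
      refine ⟨0, ?_⟩
      rw [hE0, Denumerable.ofNat_encode]
      rfl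
    | succ n => exact ⟨_, by rw [hEs, hhe]⟩
  have hneg : ∀ (n : ℕ) (B : ℕ → Bool) (x : X), GG false B (E n, x) ↔ ¬ GG true B (E n, x) := by
    intro n B x
    obtain ⟨y, hy⟩ := htot n x
    simp only [GG, hy, Part.mem_some_iff]
    simp
  have key : ∀ (n : ℕ) (x : X), x.2.1 < n → (GG true (jumpN (2 * n)) (E n, x) ↔ Holds σ D x) := by
    intro n
    induction n with
    | zero => intro x hx; exact absurd hx (Nat.not_lt_zero _)
    | succ n ih =>
      intro x hx
      have h1 : GG true (jumpN (2 * (n + 1))) (E (n + 1), x) ↔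
          jumpN (2 * n + 2) (f2 (E n, x)) = true := by
        simp only [GG, hEs, hhe, Part.mem_some_iff]
        simp [show 2 * (n + 1) = 2 * n + 2 by ring]
      rw [h1, jumpN_succ, ← e2]
      have hq : ∀ w, jumpN (2 * n + 1) (f1 w) = true ↔ Q1 D (jumpN (2 * n)) w := by
        intro w
        rw [jumpN_succ, ← e1]
      have hq0 : ∀ z : X, jumpN (2 * n + 1) (f1 ((E n, z), false)) = true ↔
          GG true (jumpN (2 * n)) (E n, z) := by
        intro z
        rw [hq]
        simp [Q1]
      have hlt : ∀ z : X, z.2.1 < x.2.1 → z.2.1 < n := fun z hz => by omega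
      refine unf_iff σ D F R hF hR ?_ ?_ ?_
      · intro z hz
        rw [hq0, ih z (hlt z hz)]
      · intro z hz
        rw [← ih z (hlt z hz), ← hq0]
        simp
      · intro z hz
        have h2 : jumpN (2 * n + 1) (f1 ((E n, (3, z.1, z.2.1, z.2.2, 0)), true)) = false ↔
            ¬ Q1 D (jumpN (2 * n)) ((E n, (3, z.1, z.2.1, z.2.2, 0)), true) := by
          rw [← hq]
          simp
        rw [h2]
        simp only [Q1, hneg]
        simp only [Bool.true_eq_false, false_and, true_and, false_or, not_exists, not_and, not_not]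
        refine forall_congr' fun d => imp_congr_right fun _ => ?_
        exact ih (3, z.1, z.2.1, z.2.2 ++ [d], 0) (lt_of_lt_of_le hz (Nat.lt_succ_iff.1 hx))
  -- the reduction
  refine ⟨fun y => (Nat.casesOn y.1 0 fun n => f2 (E n, y.2) : ℕ), ?_, ?_⟩
  · refine Primrec.nat_casesOn Primrec.fst (Primrec.const 0) ?_
    refine Primrec₂.mk (hf2.comp (Primrec.pair ?_ ?_))
    · exact hE.comp Primrec.snd
    · exact Primrec.snd.comp Primrec.fst
  · intro n x hx
    cases n with
    | zero => exact absurd hx (Nat.not_lt_zero _)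
    | succ n =>
      rw [← key (n + 1) x hx]
      simp only [GG, hEs, hhe, Part.mem_some_iff]
      simp

/-- The theory of a computable structure is many-one reducible to `0^(ω)`. -/
theorem theory_reduce (h : IsComputable σ D) :
    ∃ f : ℕ → ℕ, Computable f ∧ ∀ m,
      codes (σ.lang.completeTheory {d : ℕ // D d = true}) m = zeroOmega (f m) := by
  obtain ⟨f, hf, e⟩ := holds_reduce σ D h
  refine ⟨fun m => Nat.pair (2 * (m + 1)) (f (m + 1, (3, m, 0, [], 0))), ?_, fun m => ?_⟩
  · refine Primrec.to_comp (Primrec₂.natPair.comp ?_ (hf.comp (Primrec.succ.pair (mkX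
      (Primrec.const 3) Primrec.id (Primrec.const 0) (Primrec.const []) (Primrec.const 0)))))
    exact Primrec.nat_mul.comp (Primrec.const 2) Primrec.succ
  · rw [Bool.eq_iff_iff]
    simp only [zeroOmega, Nat.unpair_pair]
    rw [← e (m + 1) (3, m, 0, [], 0) (Nat.lt_succ_self m), holds_three]
    simp only [codes, decide_eq_true_eq]
    have e0 : (Empty.elim : Empty → {d : ℕ // D d = true}) = default := funext fun x => x.elim
    have e1 : ∀ v w : Fin 0 → {d : ℕ // D d = true}, v = w := fun v w => funext fun i => i.elim0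
    constructor
    · rintro ⟨φ, hφ, rfl⟩
      refine ⟨φ, default, rfl, by simp, ?_⟩
      have h1 : {d : ℕ // D d = true} ⊨ φ := hφ
      rw [Sentence.Realize, Formula.Realize] at h1
      rw [e0]
      exact h1
    · rintro ⟨φ, v, rfl, -, h1⟩
      refine ⟨φ, ?_, rfl⟩
      change {d : ℕ // D d = true} ⊨ φ
      rw [Sentence.Realize, Formula.Realize]
      rw [e0, e1 v default] at h1
      exact h1

end

/-! ### The family of the sets many-one reducible to `0^(ω)` -/

/-- The `e`-th set. -/
noncomputable def fam (e : ℕ) (m : ℕ) : Bool :=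
  haveI := Classical.propDecidable
  decide (∃ y, y ∈ (Denumerable.ofNat Code e).eval m ∧ zeroOmega y = true)

theorem fam_true {e m : ℕ} : fam e m = true ↔
    ∃ y, y ∈ (Denumerable.ofNat Code e).eval m ∧ zeroOmega y = true := by
  simp only [fam, decide_eq_true_eq]

theorem jump_le_zeroOmega : Pool.Agent.Helper227.TLe (jump fun _ => false) zeroOmega := by
  refine Pool.Agent.Helper227.tLe_of_computable (f := fun n => Nat.pair 1 n)
    (Primrec₂.natPair.comp (Primrec.const 1) Primrec.id).to_comp fun n => ?_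
  simp only [zeroOmega, Nat.unpair_pair]
  rw [jumpN_succ]
  rfl

theorem SI_fam : SI zeroOmega fun x : ℕ × ℕ × Bool => fam x.1 x.2.1 = x.2.2 := by
  have hev : SI zeroOmega fun x : (ℕ × ℕ) × ℕ =>
      x.2 ∈ (Denumerable.ofNat Code x.1.1).eval x.1.2 :=
    SI.of_s1 (s1_graph0.comp (f := fun x : (ℕ × ℕ) × ℕ => ((Denumerable.ofNat Code x.1.1, x.1.2),
      x.2)) ((((Primrec.ofNat Code).comp (Primrec.fst.comp Primrec.fst)).pair
      (Primrec.snd.comp Primrec.fst)).pair Primrec.snd))
  have hq : ∀ b : Bool, SI zeroOmega fun x : ℕ × ℕ =>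
      ∃ y, y ∈ (Denumerable.ofNat Code x.1).eval x.2 ∧ zeroOmega y = b := by
    intro b
    refine SI.ex (p := fun (x : ℕ × ℕ) (y : ℕ) => y ∈ (Denumerable.ofNat Code x.1).eval x.2 ∧
      zeroOmega y = b) (SI.and hev ?_)
    exact SI.query.comp (f := fun x : (ℕ × ℕ) × ℕ => (x.2, b)) (Primrec.snd.pair (Primrec.const b))
  have hdom : SI zeroOmega fun x : ℕ × ℕ => ¬ ((Denumerable.ofNat Code x.1).eval x.2).Dom :=
    SI_not_s1 jump_le_zeroOmega (Pool.Agent.Helper227.s1_eval.comp
      (f := fun x : ℕ × ℕ => (Denumerable.ofNat Code x.1, x.2))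
      (((Primrec.ofNat Code).comp Primrec.fst).pair Primrec.snd))
  have h1 : SI zeroOmega fun x : ℕ × ℕ × Bool => (x.2.2 = true ∧
      ∃ y, y ∈ (Denumerable.ofNat Code x.1).eval x.2.1 ∧ zeroOmega y = true) ∨
      (x.2.2 = false ∧ ((¬ ((Denumerable.ofNat Code x.1).eval x.2.1).Dom) ∨
      ∃ y, y ∈ (Denumerable.ofNat Code x.1).eval x.2.1 ∧ zeroOmega y = false)) := by
    have hp : Primrec fun x : ℕ × ℕ × Bool => (x.1, x.2.1) :=
      Primrec.fst.pair (Primrec.fst.comp Primrec.snd)
    have hb : ∀ b : Bool, SI zeroOmega fun x : ℕ × ℕ × Bool => x.2.2 = b := fun b =>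
      SI.of_prim (Primrec.eq.comp (Primrec.snd.comp Primrec.snd) (Primrec.const b))
    exact SI.or (SI.and (hb true) ((hq true).comp hp))
      (SI.and (hb false) (SI.or (hdom.comp hp) ((hq false).comp hp)))
  refine h1.of_eq fun x => ?_
  obtain ⟨e, m, b⟩ := x
  simp only
  cases b with
  | true => simp only [fam_true, true_and, Bool.true_eq_false, false_and, or_false]
  | false =>
    have h2 : fam e m = false ↔ ¬ fam e m = true := by simp
    rw [h2, fam_true]
    simp only [Bool.false_eq_true, false_and, true_and, false_or]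
    constructor
    · rintro (h | ⟨y, hy, h⟩) ⟨y', hy', h'⟩
      · exact h (Part.dom_iff_mem.2 ⟨y', hy'⟩)
      · rw [Part.mem_unique hy hy', h'] at h
        cases h
    · intro h
      by_cases hd : ((Denumerable.ofNat Code e).eval m).Dom
      · obtain ⟨y, hy⟩ := Part.dom_iff_mem.1 hd
        refine Or.inr ⟨y, hy, ?_⟩
        cases hz : zeroOmega y with
        | false => rfl
        | true => exact absurd ⟨y, hy, hz⟩ h
      · exact Or.inl hd

/-- Every set many-one reducible to `0^(ω)` occurs in the family. -/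
theorem exists_fam {B : ℕ → Bool} {f : ℕ → ℕ} (hf : Computable f)
    (h : ∀ m, B m = zeroOmega (f m)) : ∃ e, fam e = B := by
  obtain ⟨c, hc⟩ := Nat.Partrec.Code.exists_code.1 (Partrec.nat_iff.1 hf.partrec)
  refine ⟨encode c, ?_⟩
  funext m
  rw [Bool.eq_iff_iff, fam_true, Denumerable.ofNat_encode, hc, h m]
  simp

/-- **Main theorem.** Some set `A` computable from `0^(ω)` is not Turing equivalent to the theory
of any computable structure. -/
theorem main : ∃ A : ℕ → Bool, TLe A zeroOmega ∧
    ∀ (σ : Sig) (D : ℕ → Bool) [σ.lang.Structure {d : ℕ // D d = true}], IsComputable σ D →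
      ¬ TEquiv (codes (σ.lang.completeTheory {d : ℕ // D d = true})) A := by
  obtain ⟨A, hA, h⟩ := exists_not_equiv jump_le_zeroOmega SI_fam
  refine ⟨A, hA, fun σ D inst hM hE => ?_⟩
  obtain ⟨f, hf, e⟩ := theory_reduce σ D hM
  obtain ⟨i, hi⟩ := exists_fam hf e
  rw [← hi] at hE
  exact h i ⟨hE.2, hE.1⟩

end Pool.Agent.J4H74.TW
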