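import Pool.Agent.J4H74.TW.Defs

set_option autoImplicit false

/-! Unfolding of being a code and of being true in terms of smaller codes. -/

namespace Pool.Agent.J4H74.TW

open FirstOrder FirstOrder.Language Encodable

variable {σ : Sig} {D : ℕ → Bool} [σ.lang.Structure {d : ℕ // D d = true}]

/-! ### Codes -/

theorem encode_getD_le (l : List ℕ) : ∀ i, i < l.length → l.getD i 0 < encode l := by
  induction l with
  | nil => intro i hi; simp at hi
  | cons a l ih =>
    intro i hi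
    rw [Encodable.encode_list_cons]
    cases i with
    | zero =>
      have := Nat.left_le_pair a (encode l)
      simp only [List.getD_cons_zero, Encodable.encode_nat]
      omega
    | succ i =>
      have h1 := ih i (by simpa using hi)
      have := Nat.right_le_pair a (encode l)
      simp only [List.getD_cons_succ, Encodable.encode_nat]
      omega

theorem tcode_inj {n : ℕ} (s : σ.lang.Term (Empty ⊕ Fin n)) :
    ∀ t : σ.lang.Term (Empty ⊕ Fin n), tcode s = tcode t → s = t := by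
  induction s with
  | var x =>
    intro t h
    cases t with
    | var y =>
      rcases x with x | x
      · exact x.elim
      · rcases y with y | y
        · exact y.elim
        · simp only [tcode] at h
          have : x = y := Fin.ext (by omega)
          rw [this]
    | func g ts =>
      rcases x with x | x
      · exact x.elim
      · simp only [tcode] at h
        omega
  | @func l f ts ih =>
    intro t h
    cases t with
    | var y =>
      rcases y with y | y
      · exact y.elim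
      · simp only [tcode] at h
        omega
    | @func l' g us =>
      simp only [tcode] at h
      have h1 : Nat.pair f.1 (encode (List.ofFn fun i => tcode (ts i))) =
          Nat.pair g.1 (encode (List.ofFn fun i => tcode (us i))) := by omega
      obtain ⟨h2, h3⟩ := Nat.pair_eq_pair.1 h1
      have h4 := encode_injective h3
      have h5 : l = l' := by
        have := congrArg List.length h4
        simpa using this
      subst h5
      have h6 : f = g := Subtype.ext h2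
      subst h6
      have h7 := List.ofFn_injective h4
      congr 1
      funext i
      exact ih i _ (congrFun h7 i)

theorem fcode_inj {n : ℕ} (φ : σ.lang.BoundedFormula Empty n) :
    ∀ ψ : σ.lang.BoundedFormula Empty n, fcode φ = fcode ψ → φ = ψ := by
  induction φ with
  | falsum =>
    intro ψ h
    cases ψ <;> simp only [fcode] at h <;> first | rfl | omega
  | equal s t =>
    intro ψ h
    cases ψ with
    | equal s' t' =>
      simp only [fcode] at h
      obtain ⟨h2, h3⟩ := Nat.pair_eq_pair.1 (show Nat.pair (tcode s) (tcode t) =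
        Nat.pair (tcode s') (tcode t') by omega)
      rw [tcode_inj _ _ h2, tcode_inj _ _ h3]
    | _ => simp only [fcode] at h; omega
  | @rel n l r ts =>
    intro ψ h
    cases ψ with
    | @rel _ l' r' ts' =>
      simp only [fcode] at h
      obtain ⟨h2, h3⟩ := Nat.pair_eq_pair.1 (show
        Nat.pair r.1 (encode (List.ofFn fun i => tcode (ts i))) =
          Nat.pair r'.1 (encode (List.ofFn fun i => tcode (ts' i))) by omega)
      have h4 := encode_injective h3
      have h5 : l = l' := by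
        have := congrArg List.length h4
        simpa using this
      subst h5
      have h6 : r = r' := Subtype.ext h2
      subst h6
      have h7 := List.ofFn_injective h4
      congr 1
      funext i
      exact tcode_inj _ _ (congrFun h7 i)
    | _ => simp only [fcode] at h; omega
  | imp φ ψ ih1 ih2 =>
    intro χ h
    cases χ with
    | imp φ' ψ' =>
      simp only [fcode] at h
      obtain ⟨h2, h3⟩ := Nat.pair_eq_pair.1 (show Nat.pair (fcode φ) (fcode ψ) =
        Nat.pair (fcode φ') (fcode ψ') by omega)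
      rw [ih1 _ h2, ih2 _ h3]
    | _ => simp only [fcode] at h; omega
  | all φ ih =>
    intro χ h
    cases χ with
    | all φ' =>
      simp only [fcode] at h
      rw [ih φ' (by omega)]
    | _ => simp only [fcode] at h; omega

/-! ### The four kinds of statements -/

variable (σ) in
def TC (m k : ℕ) : Prop := ∃ t : σ.lang.Term (Empty ⊕ Fin k), tcode t = m

variable (σ) in
def FC (m k : ℕ) : Prop := ∃ φ : σ.lang.BoundedFormula Empty k, fcode φ = m

variable (σ D) in
def TV (m k : ℕ) (a : List ℕ) (y : ℕ) : Prop :=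
  ∃ (t : σ.lang.Term (Empty ⊕ Fin k)) (v : Fin k → {d : ℕ // D d = true}), tcode t = m ∧
    List.ofFn (fun i => (v i).1) = a ∧ (t.realize (Sum.elim Empty.elim v)).1 = y

variable (σ D) in
def FT (m k : ℕ) (a : List ℕ) : Prop :=
  ∃ (φ : σ.lang.BoundedFormula Empty k) (v : Fin k → {d : ℕ // D d = true}), fcode φ = m ∧
    List.ofFn (fun i => (v i).1) = a ∧ φ.Realize Empty.elim v

variable (D) in
/-- `a` is an assignment for `k` variables. -/
def Valid (a : List ℕ) (k : ℕ) : Prop := a.length = k ∧ ∀ d ∈ a, D d = true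

theorem valid_iff {a : List ℕ} {k : ℕ} :
    Valid D a k ↔ ∃ v : Fin k → {d : ℕ // D d = true}, List.ofFn (fun i => (v i).1) = a := by
  constructor
  · rintro ⟨rfl, h⟩
    refine ⟨fun i => ⟨a[i], h _ (List.getElem_mem _)⟩, ?_⟩
    simp
  · rintro ⟨v, rfl⟩
    refine ⟨by simp, ?_⟩
    intro d hd
    rw [List.mem_ofFn] at hd
    obtain ⟨i, rfl⟩ := hd
    exact (v i).2

theorem ofFn_inj {k : ℕ} {v w : Fin k → {d : ℕ // D d = true}}
    (h : List.ofFn (fun i => (v i).1) = List.ofFn (fun i => (w i).1)) : v = w := by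
  have := List.ofFn_injective h
  funext i
  exact Subtype.ext (congrFun this i)

theorem ofFn_of_getD {l : List ℕ} {g : Fin l.length → ℕ} (h : ∀ i, g i = l.getD i.1 0) :
    List.ofFn g = l := by
  refine List.ext_getElem (by simp) fun i h1 h2 => ?_
  simp [h, h2]

theorem TC_iff {m k : ℕ} : TC σ m k ↔ (∃ i, m = 2 * i ∧ i < k) ∨
    ∃ w : ℕ × List ℕ, (m = 2 * Nat.pair w.1 (encode w.2) + 1 ∧ σ.fn w.1 = some w.2.length) ∧
      ∀ i < w.2.length, TC σ (w.2.getD i 0) k := by
  constructor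
  · rintro ⟨t, rfl⟩
    cases t with
    | var x =>
      rcases x with x | x
      · exact x.elim
      · exact Or.inl ⟨x.1, rfl, x.2⟩
    | @func l f ts =>
      refine Or.inr ⟨(f.1, List.ofFn fun i => tcode (ts i)), ⟨rfl, by simpa using f.2⟩, ?_⟩
      intro i hi
      have hi' : i < l := by simpa using hi
      exact ⟨ts ⟨i, hi'⟩, by simp [hi']⟩
  · rintro (⟨i, rfl, hi⟩ | ⟨⟨s, l⟩, ⟨rfl, h1⟩, h2⟩)
    · exact ⟨.var (.inr ⟨i, hi⟩), rfl⟩
    · choose ts hts using fun i : Fin l.length => h2 i.1 i.2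
      refine ⟨.func (l := l.length) ⟨s, h1⟩ ts, ?_⟩
      simp only [tcode]
      rw [ofFn_of_getD hts]

theorem TV_iff (F : ℕ × List ℕ → ℕ)
    (hF : ∀ (k : ℕ) (f : σ.lang.Functions k) (x : Fin k → {d : ℕ // D d = true}),
      (Structure.funMap f x).1 = F (f.1, List.ofFn fun i => (x i).1))
    {m k : ℕ} {a : List ℕ} {y : ℕ} : TV σ D m k a y ↔ Valid D a k ∧
      ((∃ i, m = 2 * i ∧ i < k ∧ a[i]? = some y) ∨
      ∃ w : ℕ × List ℕ × List ℕ, (m = 2 * Nat.pair w.1 (encode w.2.1) + 1 ∧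
        w.2.2.length = w.2.1.length) ∧ (σ.fn w.1 = some w.2.1.length ∧ F (w.1, w.2.2) = y) ∧
        ∀ i < w.2.1.length, TV σ D (w.2.1.getD i 0) k a (w.2.2.getD i 0)) := by
  constructor
  · rintro ⟨t, v, rfl, rfl, rfl⟩
    refine ⟨valid_iff.2 ⟨v, rfl⟩, ?_⟩
    cases t with
    | var x =>
      rcases x with x | x
      · exact x.elim
      · exact Or.inl ⟨x.1, rfl, x.2, by simp⟩
    | @func l f ts =>
      refine Or.inr ⟨(f.1, List.ofFn fun i => tcode (ts i), List.ofFn fun i =>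
        ((ts i).realize (Sum.elim Empty.elim v)).1), ⟨rfl, by simp⟩, ⟨by simpa using f.2, ?_⟩, ?_⟩
      · rw [Term.realize_func, hF]
      · intro i hi
        have hi' : i < l := by simpa using hi
        exact ⟨ts ⟨i, hi'⟩, v, by simp [hi'], rfl, by simp [hi']⟩
  · rintro ⟨hv, ⟨i, rfl, hi, hy⟩ | ⟨⟨s, l, ys⟩, ⟨rfl, h0⟩, ⟨h1, rfl⟩, h2⟩⟩
    · obtain ⟨v, rfl⟩ := valid_iff.1 hv
      refine ⟨.var (.inr ⟨i, hi⟩), v, rfl, rfl, ?_⟩
      simpa [hi] using hy
    · obtain ⟨v, rfl⟩ := valid_iff.1 hv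
      simp only at h0 h1 h2
      have h3 : ∀ i : Fin l.length, ∃ t : σ.lang.Term (Empty ⊕ Fin k), tcode t = l.getD i.1 0 ∧
          (t.realize (Sum.elim Empty.elim v)).1 = ys.getD i.1 0 := by
        intro i
        obtain ⟨t, v', h4, h5, h6⟩ := h2 i.1 i.2
        rw [ofFn_inj h5] at h6
        exact ⟨t, h4, h6⟩
      choose ts hts hys using h3
      refine ⟨.func (l := l.length) ⟨s, h1⟩ ts, v, ?_, rfl, ?_⟩
      · simp only [tcode]
        rw [ofFn_of_getD hts]
      · refine (hF l.length ⟨s, h1⟩ (fun i => (ts i).realize (Sum.elim Empty.elim v))).trans ?_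
        simp only
        congr 2
        refine List.ext_getElem (by simp [h0]) fun i h5 h6 => ?_
        have h7 : i < l.length := by simpa using h5
        simp only [List.getElem_ofFn]
        rw [hys ⟨i, h7⟩]
        simp [h6]

theorem FC_iff {m k : ℕ} : FC σ m k ↔ m = 0 ∨
    (∃ w : ℕ × ℕ, m = 4 * Nat.pair w.1 w.2 + 1 ∧ TC σ w.1 k ∧ TC σ w.2 k) ∨
    (∃ w : ℕ × List ℕ, (m = 4 * Nat.pair w.1 (encode w.2) + 2 ∧ σ.rel w.1 = some w.2.length) ∧
      ∀ i < w.2.length, TC σ (w.2.getD i 0) k) ∨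
    (∃ w : ℕ × ℕ, m = 4 * Nat.pair w.1 w.2 + 3 ∧ FC σ w.1 k ∧ FC σ w.2 k) ∨
    (∃ m1 : ℕ, m = 4 * m1 + 4 ∧ FC σ m1 (k + 1)) := by
  constructor
  · rintro ⟨φ, rfl⟩
    cases φ with
    | falsum => exact Or.inl rfl
    | equal s t => exact Or.inr (Or.inl ⟨(tcode s, tcode t), rfl, ⟨s, rfl⟩, ⟨t, rfl⟩⟩)
    | @rel _ l r ts =>
      refine Or.inr (Or.inr (Or.inl ⟨(r.1, List.ofFn fun i => tcode (ts i)),
        ⟨rfl, by simpa using r.2⟩, ?_⟩))
      intro i hi
      have hi' : i < l := by simpa using hi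
      exact ⟨ts ⟨i, hi'⟩, by simp [hi']⟩
    | imp φ ψ =>
      exact Or.inr (Or.inr (Or.inr (Or.inl ⟨(fcode φ, fcode ψ), rfl, ⟨φ, rfl⟩, ⟨ψ, rfl⟩⟩)))
    | all φ => exact Or.inr (Or.inr (Or.inr (Or.inr ⟨fcode φ, rfl, ⟨φ, rfl⟩⟩)))
  · rintro (rfl | ⟨⟨x, y⟩, rfl, ⟨s, hs⟩, ⟨t, ht⟩⟩ | ⟨⟨s, l⟩, ⟨rfl, h1⟩, h2⟩ |
      ⟨⟨x, y⟩, rfl, ⟨φ, hφ⟩, ⟨ψ, hψ⟩⟩ | ⟨m1, rfl, ⟨φ, hφ⟩⟩)
    · exact ⟨.falsum, rfl⟩
    · exact ⟨.equal s t, by simp only [fcode, hs, ht]⟩
    · choose ts hts using fun i : Fin l.length => h2 i.1 i.2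
      refine ⟨.rel (l := l.length) ⟨s, h1⟩ ts, ?_⟩
      simp only [fcode]
      rw [ofFn_of_getD hts]
    · exact ⟨.imp φ ψ, by simp only [fcode, hφ, hψ]⟩
    · exact ⟨.all φ, by simp only [fcode, hφ]⟩

theorem ofFn_snoc {k : ℕ} (v : Fin k → {d : ℕ // D d = true}) (d : {d : ℕ // D d = true}) :
    List.ofFn (fun i => (Fin.snoc (α := fun _ => {d : ℕ // D d = true}) v d i).1) =
      List.ofFn (fun i => (v i).1) ++ [d.1] := by
  rw [List.ofFn_succ']
  simp

theorem FT_iff (G : ℕ × List ℕ → Bool)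
    (hG : ∀ (k : ℕ) (r : σ.lang.Relations k) (x : Fin k → {d : ℕ // D d = true}),
      Structure.RelMap r x ↔ G (r.1, List.ofFn fun i => (x i).1) = true)
    {m k : ℕ} {a : List ℕ} : FT σ D m k a ↔ Valid D a k ∧
    ((∃ w : ℕ × ℕ × ℕ, m = 4 * Nat.pair w.1 w.2.1 + 1 ∧
      TV σ D w.1 k a w.2.2 ∧ TV σ D w.2.1 k a w.2.2) ∨
    (∃ w : ℕ × List ℕ × List ℕ, (m = 4 * Nat.pair w.1 (encode w.2.1) + 2 ∧
        w.2.2.length = w.2.1.length) ∧ (σ.rel w.1 = some w.2.1.length ∧ G (w.1, w.2.2) = true) ∧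
        ∀ i < w.2.1.length, TV σ D (w.2.1.getD i 0) k a (w.2.2.getD i 0)) ∨
    (∃ w : ℕ × ℕ, m = 4 * Nat.pair w.1 w.2 + 3 ∧ (FC σ w.1 k ∧ FC σ w.2 k) ∧
      (¬ FT σ D w.1 k a ∨ FT σ D w.2 k a)) ∨
    (∃ m1 : ℕ, m = 4 * m1 + 4 ∧ FC σ m1 (k + 1) ∧
      ∀ d, D d = true → FT σ D m1 (k + 1) (a ++ [d]))) := by
  have hTV : ∀ (v : Fin k → {d : ℕ // D d = true}) (t : σ.lang.Term (Empty ⊕ Fin k)) (y : ℕ),
      TV σ D (tcode t) k (List.ofFn fun i => (v i).1) y →
        (t.realize (Sum.elim Empty.elim v)).1 = y := by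
    rintro v t y ⟨t', v', h1, h2, h3⟩
    rw [tcode_inj _ _ h1, ofFn_inj h2] at h3
    exact h3
  have hFT : ∀ {k : ℕ} (v : Fin k → {d : ℕ // D d = true}) (φ : σ.lang.BoundedFormula Empty k),
      FT σ D (fcode φ) k (List.ofFn fun i => (v i).1) ↔ φ.Realize Empty.elim v := by
    intro k v φ
    constructor
    · rintro ⟨φ', v', h1, h2, h3⟩
      rw [fcode_inj _ _ h1, ofFn_inj h2] at h3
      exact h3
    · intro h
      exact ⟨φ, v, rfl, rfl, h⟩
  constructor
  · rintro ⟨φ, v, rfl, rfl, h⟩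
    refine ⟨valid_iff.2 ⟨v, rfl⟩, ?_⟩
    cases φ with
    | falsum => exact h.elim
    | equal s t =>
      refine Or.inl ⟨(tcode s, tcode t, (s.realize (Sum.elim Empty.elim v)).1), rfl,
        ⟨s, v, rfl, rfl, rfl⟩, ⟨t, v, rfl, rfl, ?_⟩⟩
      have h1 : s.realize (Sum.elim Empty.elim v) = t.realize (Sum.elim Empty.elim v) := h
      rw [h1]
    | @rel _ l r ts =>
      have h1 : Structure.RelMap r fun i => (ts i).realize (Sum.elim Empty.elim v) := h
      refine Or.inr (Or.inl ⟨(r.1, List.ofFn fun i => tcode (ts i), List.ofFn fun i =>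
        ((ts i).realize (Sum.elim Empty.elim v)).1), ⟨rfl, by simp⟩, ⟨by simpa using r.2, ?_⟩, ?_⟩)
      · exact (hG _ _ _).1 h1
      · intro i hi
        have hi' : i < l := by simpa using hi
        exact ⟨ts ⟨i, hi'⟩, v, by simp [hi'], rfl, by simp [hi']⟩
    | imp φ ψ =>
      have h1 : φ.Realize Empty.elim v → ψ.Realize Empty.elim v := h
      refine Or.inr (Or.inr (Or.inl ⟨(fcode φ, fcode ψ), rfl, ⟨⟨φ, rfl⟩, ⟨ψ, rfl⟩⟩, ?_⟩))
      simp only [hFT]
      by_cases h2 : φ.Realize Empty.elim v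
      · exact Or.inr (h1 h2)
      · exact Or.inl h2
    | all φ =>
      have h1 : ∀ d, φ.Realize Empty.elim (Fin.snoc v d) := h
      refine Or.inr (Or.inr (Or.inr ⟨fcode φ, rfl, ⟨φ, rfl⟩, ?_⟩))
      intro d hd
      have h2 := (hFT _ φ).2 (h1 ⟨d, hd⟩)
      rwa [ofFn_snoc] at h2
  · rintro ⟨hv, h⟩
    obtain ⟨v, rfl⟩ := valid_iff.1 hv
    rcases h with ⟨⟨x, y, z⟩, rfl, h1, h2⟩ | ⟨⟨s, l, ys⟩, ⟨rfl, h0⟩, ⟨h1, h1'⟩, h2⟩ |
      ⟨⟨x, y⟩, rfl, ⟨⟨φ, hφ⟩, ⟨ψ, hψ⟩⟩, h1⟩ | ⟨m1, rfl, ⟨φ, hφ⟩, h1⟩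
    · obtain ⟨s, v', h3, h4, h5⟩ := h1
      obtain ⟨t, v'', h6, h7, h8⟩ := h2
      rw [ofFn_inj h4] at h5
      rw [ofFn_inj h7] at h8
      refine ⟨.equal s t, v, by simp only [fcode, h3, h6], rfl, ?_⟩
      have : s.realize (Sum.elim Empty.elim v) = t.realize (Sum.elim Empty.elim v) :=
        Subtype.ext (h5.trans h8.symm)
      exact this
    · simp only at h0 h1 h1' h2
      have h3 : ∀ i : Fin l.length, ∃ t : σ.lang.Term (Empty ⊕ Fin k), tcode t = l.getD i.1 0 ∧
          (t.realize (Sum.elim Empty.elim v)).1 = ys.getD i.1 0 := by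
        intro i
        obtain ⟨t, v', h4, h5, h6⟩ := h2 i.1 i.2
        rw [ofFn_inj h5] at h6
        exact ⟨t, h4, h6⟩
      choose ts hts hys using h3
      refine ⟨.rel (l := l.length) ⟨s, h1⟩ ts, v, ?_, rfl, ?_⟩
      · simp only [fcode]
        rw [ofFn_of_getD hts]
      · refine (hG _ _ _).2 ?_
        have h4 : (List.ofFn fun i : Fin l.length =>
            ((ts i).realize (Sum.elim Empty.elim v)).1) = ys := by
          refine List.ext_getElem (by simp [h0]) fun i h5 h6 => ?_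
          have h7 : i < l.length := by simpa using h5
          simp only [List.getElem_ofFn]
          rw [hys ⟨i, h7⟩]
          simp [h6]
        rw [h4]
        exact h1'
    · subst hφ hψ
      refine ⟨.imp φ ψ, v, rfl, rfl, ?_⟩
      simp only [hFT] at h1
      intro h2
      rcases h1 with h1 | h1
      · exact absurd h2 h1
      · exact h1
    · subst hφ
      refine ⟨.all φ, v, rfl, rfl, ?_⟩
      intro d
      have h2 := h1 d.1 d.2
      rw [← ofFn_snoc v d] at h2
      exact (hFT _ φ).1 h2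

end Pool.Agent.J4H74.TW
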