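import Pool.Agent.J4H74.TW.Sem
import Pool.Agent.H685R3.US

set_option autoImplicit false

/-! The unfolding of statements about codes as an operator, and its effectivity. -/

namespace Pool.Agent.J4H74.TW

open FirstOrder FirstOrder.Language Encodable
open Pool.Agent.Helper227 (S1 SI pre)
open Pool.Agent.H685R3 (US)

/-- Statements `(kind, m, k, a, y)` about the code `m`. -/
abbrev X : Type := ℕ × ℕ × ℕ × List ℕ × ℕ

section sem

variable (σ : Sig) (D : ℕ → Bool) [σ.lang.Structure {d : ℕ // D d = true}]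

def Holds (x : X) : Prop :=
  (x.1 = 0 ∧ TC σ x.2.1 x.2.2.1) ∨ (x.1 = 1 ∧ TV σ D x.2.1 x.2.2.1 x.2.2.2.1 x.2.2.2.2) ∨
  (x.1 = 2 ∧ FC σ x.2.1 x.2.2.1) ∨ (x.1 = 3 ∧ FT σ D x.2.1 x.2.2.1 x.2.2.2.1)

@[simp] theorem holds_zero (m k : ℕ) (a : List ℕ) (y : ℕ) :
    Holds σ D (0, m, k, a, y) ↔ TC σ m k := by simp [Holds]

@[simp] theorem holds_one (m k : ℕ) (a : List ℕ) (y : ℕ) :
    Holds σ D (1, m, k, a, y) ↔ TV σ D m k a y := by simp [Holds]

@[simp] theorem holds_two (m k : ℕ) (a : List ℕ) (y : ℕ) :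
    Holds σ D (2, m, k, a, y) ↔ FC σ m k := by simp [Holds]

@[simp] theorem holds_three (m k : ℕ) (a : List ℕ) (y : ℕ) :
    Holds σ D (3, m, k, a, y) ↔ FT σ D m k a := by simp [Holds]

end sem

variable (σ : Sig) (D : ℕ → Bool) (F : ℕ × List ℕ → ℕ) (R : ℕ × List ℕ → Bool)

def U0 (G : X → Prop) (x : X) : Prop :=
  (∃ i, x.2.1 = 2 * i ∧ i < x.2.2.1) ∨
    ∃ w : ℕ × List ℕ, (x.2.1 = 2 * Nat.pair w.1 (encode w.2) + 1 ∧ σ.fn w.1 = some w.2.length) ∧
      ∀ i < w.2.length, G (0, w.2.getD i 0, x.2.2.1, [], 0)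

def U1 (G : X → Prop) (x : X) : Prop :=
  Valid D x.2.2.2.1 x.2.2.1 ∧
      ((∃ i, x.2.1 = 2 * i ∧ i < x.2.2.1 ∧ x.2.2.2.1[i]? = some x.2.2.2.2) ∨
      ∃ w : ℕ × List ℕ × List ℕ, (x.2.1 = 2 * Nat.pair w.1 (encode w.2.1) + 1 ∧
        w.2.2.length = w.2.1.length) ∧ (σ.fn w.1 = some w.2.1.length ∧
          F (w.1, w.2.2) = x.2.2.2.2) ∧
        ∀ i < w.2.1.length, G (1, w.2.1.getD i 0, x.2.2.1, x.2.2.2.1, w.2.2.getD i 0))

def U2 (G : X → Prop) (x : X) : Prop :=
  x.2.1 = 0 ∨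
    (∃ w : ℕ × ℕ, x.2.1 = 4 * Nat.pair w.1 w.2 + 1 ∧ G (0, w.1, x.2.2.1, [], 0) ∧
      G (0, w.2, x.2.2.1, [], 0)) ∨
    (∃ w : ℕ × List ℕ, (x.2.1 = 4 * Nat.pair w.1 (encode w.2) + 2 ∧
        σ.rel w.1 = some w.2.length) ∧
      ∀ i < w.2.length, G (0, w.2.getD i 0, x.2.2.1, [], 0)) ∨
    (∃ w : ℕ × ℕ, x.2.1 = 4 * Nat.pair w.1 w.2 + 3 ∧ G (2, w.1, x.2.2.1, [], 0) ∧
      G (2, w.2, x.2.2.1, [], 0)) ∨
    (∃ m1 : ℕ, x.2.1 = 4 * m1 + 4 ∧ G (2, m1, x.2.2.1 + 1, [], 0))

def U3 (G NG : X → Prop) (A : ℕ × ℕ × List ℕ → Prop) (x : X) : Prop :=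
  Valid D x.2.2.2.1 x.2.2.1 ∧
    ((∃ w : ℕ × ℕ × ℕ, x.2.1 = 4 * Nat.pair w.1 w.2.1 + 1 ∧
      G (1, w.1, x.2.2.1, x.2.2.2.1, w.2.2) ∧ G (1, w.2.1, x.2.2.1, x.2.2.2.1, w.2.2)) ∨
    (∃ w : ℕ × List ℕ × List ℕ, (x.2.1 = 4 * Nat.pair w.1 (encode w.2.1) + 2 ∧
        w.2.2.length = w.2.1.length) ∧ (σ.rel w.1 = some w.2.1.length ∧ R (w.1, w.2.2) = true) ∧
        ∀ i < w.2.1.length, G (1, w.2.1.getD i 0, x.2.2.1, x.2.2.2.1, w.2.2.getD i 0)) ∨
    (∃ w : ℕ × ℕ, x.2.1 = 4 * Nat.pair w.1 w.2 + 3 ∧ (G (2, w.1, x.2.2.1, [], 0) ∧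
      G (2, w.2, x.2.2.1, [], 0)) ∧
      (NG (3, w.1, x.2.2.1, x.2.2.2.1, 0) ∨ G (3, w.2, x.2.2.1, x.2.2.2.1, 0))) ∨
    (∃ m1 : ℕ, x.2.1 = 4 * m1 + 4 ∧ G (2, m1, x.2.2.1 + 1, [], 0) ∧
      A (m1, x.2.2.1 + 1, x.2.2.2.1)))

def Unf (G NG : X → Prop) (A : ℕ × ℕ × List ℕ → Prop) (x : X) : Prop :=
  (x.1 = 0 ∧ U0 σ G x) ∨ (x.1 = 1 ∧ U1 σ D F G x) ∨ (x.1 = 2 ∧ U2 σ G x) ∨
    (x.1 = 3 ∧ U3 σ D R G NG A x)

section sem

variable [σ.lang.Structure {d : ℕ // D d = true}]

theorem unf_iff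
    (hF : ∀ (k : ℕ) (f : σ.lang.Functions k) (x : Fin k → {d : ℕ // D d = true}),
      (Structure.funMap f x).1 = F (f.1, List.ofFn fun i => (x i).1))
    (hR : ∀ (k : ℕ) (r : σ.lang.Relations k) (x : Fin k → {d : ℕ // D d = true}),
      Structure.RelMap r x ↔ R (r.1, List.ofFn fun i => (x i).1) = true)
    {G NG : X → Prop} {A : ℕ × ℕ × List ℕ → Prop} {x : X}
    (hG : ∀ z : X, z.2.1 < x.2.1 → (G z ↔ Holds σ D z))
    (hNG : ∀ z : X, z.2.1 < x.2.1 → (NG z ↔ ¬ Holds σ D z))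
    (hA : ∀ z : ℕ × ℕ × List ℕ, z.1 < x.2.1 →
      (A z ↔ ∀ d, D d = true → Holds σ D (3, z.1, z.2.1, z.2.2 ++ [d], 0))) :
    Unf σ D F R G NG A x ↔ Holds σ D x := by
  obtain ⟨kd, m, k, a, y⟩ := x
  simp only at hG hNG hA
  have lt1 : ∀ {m : ℕ} {w : ℕ} {l : List ℕ} {c j : ℕ}, 2 ≤ c → m = c * Nat.pair w (encode l) + j →
      ∀ i < l.length, l.getD i 0 < m := by
    intro m w l c j hc hm i hi
    have h1 := encode_getD_le l i hi
    have h2 := Nat.right_le_pair w (encode l)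
    have h3 : 2 * Nat.pair w (encode l) ≤ c * Nat.pair w (encode l) := Nat.mul_le_mul_right _ hc
    omega
  have lt2 : ∀ {m w v j : ℕ}, m = 4 * Nat.pair w v + j → 1 ≤ j → w < m ∧ v < m := by
    intro m w v j hm hj
    have h1 := Nat.left_le_pair w v
    have h2 := Nat.right_le_pair w v
    omega
  have e0 : U0 σ G (kd, m, k, a, y) ↔ TC σ m k := by
    rw [TC_iff]
    refine or_congr Iff.rfl (exists_congr fun w => ?_)
    simp only
    refine and_congr_right fun h => forall₂_congr fun i hi => ?_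
    rw [hG _ (lt1 le_rfl h.1 i hi), holds_zero]
  have e1 : U1 σ D F G (kd, m, k, a, y) ↔ TV σ D m k a y := by
    rw [TV_iff F hF]
    refine and_congr Iff.rfl (or_congr Iff.rfl (exists_congr fun w => ?_))
    simp only
    refine and_congr_right fun h => and_congr_right fun _ => forall₂_congr fun i hi => ?_
    rw [hG _ (lt1 le_rfl h.1 i hi), holds_one]
  have e2 : U2 σ G (kd, m, k, a, y) ↔ FC σ m k := by
    rw [FC_iff]
    refine or_congr Iff.rfl (or_congr (exists_congr fun w => ?_) (or_congr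
      (exists_congr fun w => ?_) (or_congr (exists_congr fun w => ?_)
      (exists_congr fun m1 => ?_))))
    · simp only
      refine and_congr_right fun h => ?_
      obtain ⟨h1, h2⟩ := lt2 h le_rfl
      rw [hG _ h1, hG _ h2, holds_zero, holds_zero]
    · simp only
      refine and_congr_right fun h => forall₂_congr fun i hi => ?_
      rw [hG _ (lt1 (by norm_num) h.1 i hi), holds_zero]
    · simp only
      refine and_congr_right fun h => ?_
      obtain ⟨h1, h2⟩ := lt2 h (by norm_num)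
      rw [hG _ h1, hG _ h2, holds_two, holds_two]
    · simp only
      refine and_congr_right fun h => ?_
      rw [hG _ (show m1 < m by omega), holds_two]
  have e3 : U3 σ D R G NG A (kd, m, k, a, y) ↔ FT σ D m k a := by
    rw [FT_iff R hR]
    refine and_congr Iff.rfl (or_congr (exists_congr fun w => ?_) (or_congr
      (exists_congr fun w => ?_) (or_congr (exists_congr fun w => ?_)
      (exists_congr fun m1 => ?_))))
    · simp only
      refine and_congr_right fun h => ?_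
      obtain ⟨h1, h2⟩ := lt2 h le_rfl
      rw [hG _ h1, hG _ h2, holds_one, holds_one]
    · simp only
      refine and_congr_right fun h => and_congr_right fun _ => forall₂_congr fun i hi => ?_
      rw [hG _ (lt1 (by norm_num) h.1 i hi), holds_one]
    · simp only
      refine and_congr_right fun h => ?_
      obtain ⟨h1, h2⟩ := lt2 h (by norm_num)
      rw [hG _ h1, hG _ h2, hNG _ h1, hG _ h2, holds_two, holds_two, holds_three, holds_three]
    · simp only
      refine and_congr_right fun h => ?_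
      rw [hG _ (show m1 < m by omega), holds_two, hA _ (show m1 < m by omega)]
      simp only [holds_three]
  simp only [Unf, Holds]
  rw [e0, e1, e2, e3]

end sem

/-! ### Effectivity -/

section eff

theorem s1_eq {α β : Type} [Primcodable α] [Primcodable β] [DecidableEq β] {f g : α → β}
    (hf : Computable f) (hg : Computable g) : S1 fun a => f a = g a :=
  (S1.of_prim (p := fun x : β × β => x.1 = x.2)
    (Primrec.eq.comp Primrec.fst Primrec.snd)).comp_computable (hf.pair hg)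

abbrev Zt : Type := ℕ × X

theorem pe : Primrec fun z : Zt => z.1 := Primrec.fst
theorem pm : Primrec fun z : Zt => z.2.2.1 := Primrec.fst.comp (Primrec.snd.comp Primrec.snd)
theorem pk : Primrec fun z : Zt => z.2.2.2.1 :=
  Primrec.fst.comp (Primrec.snd.comp (Primrec.snd.comp Primrec.snd))
theorem pa : Primrec fun z : Zt => z.2.2.2.2.1 :=
  Primrec.fst.comp (Primrec.snd.comp (Primrec.snd.comp (Primrec.snd.comp Primrec.snd)))
theorem py : Primrec fun z : Zt => z.2.2.2.2.2 :=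
  Primrec.snd.comp (Primrec.snd.comp (Primrec.snd.comp (Primrec.snd.comp Primrec.snd)))

theorem mkX {α : Type} [Primcodable α] {f1 : α → ℕ} {f2 : α → ℕ} {f3 : α → ℕ} {f4 : α → List ℕ}
    {f5 : α → ℕ} (h1 : Primrec f1) (h2 : Primrec f2) (h3 : Primrec f3) (h4 : Primrec f4)
    (h5 : Primrec f5) : Primrec fun z => ((f1 z, f2 z, f3 z, f4 z, f5 z) : X) :=
  h1.pair (h2.pair (h3.pair (h4.pair h5)))

theorem us_valid (hD : Computable D) {α : Type} [Primcodable α] {f : α → List ℕ} {g : α → ℕ}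
    (hf : Primrec f) (hg : Primrec g) : US fun _ (z : α) => Valid D (f z) (g z) := by
  refine US.of_s1 (S1.and (S1.of_prim ?_) ?_)
  · exact Primrec.eq.comp (Primrec.list_length.comp hf) hg
  · refine S1.all_mem (p := fun _ d => D d = true) (f := f) ?_ hf
    exact s1_eq (hD.comp Computable.snd) (Computable.const true)

variable {G NG : (ℕ → Bool) → Zt → Prop} {A : (ℕ → Bool) → ℕ × ℕ × ℕ × List ℕ → Prop}

/-- The bounded universal quantifier over a list of codes. -/
theorem us_all (hG : US G) {α : Type} [Primcodable α] {e kd k : α → ℕ} {a l ys : α → List ℕ}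
    (he : Primrec e) (hkd : Primrec kd) (hk : Primrec k) (ha : Primrec a) (hl : Primrec l)
    (hy : Primrec ys) :
    US fun B (z : α) => ∀ i < (l z).length,
      G B (e z, (kd z, (l z).getD i 0, k z, a z, (ys z).getD i 0)) := by
  refine US.all_lt (α := α) (p := fun B z i =>
    G B (e z, (kd z, (l z).getD i 0, k z, a z, (ys z).getD i 0)))
    (f := fun z => (l z).length) ?_ (Primrec.list_length.comp hl)
  exact hG.comp (f := fun w : α × ℕ =>
    (e w.1, (kd w.1, (l w.1).getD w.2 0, k w.1, a w.1, (ys w.1).getD w.2 0)))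
    ((he.comp Primrec.fst).pair (mkX (hkd.comp Primrec.fst)
      ((Primrec.list_getD 0).comp (hl.comp Primrec.fst) Primrec.snd) (hk.comp Primrec.fst)
      (ha.comp Primrec.fst) ((Primrec.list_getD 0).comp (hy.comp Primrec.fst) Primrec.snd)))

theorem us_U0 (hG : US G) : US fun B (z : Zt) => U0 σ (fun x => G B (z.1, x)) z.2 := by
  refine US.or ?_ ?_
  · refine US.ex (p := fun _ (z : Zt) (i : ℕ) => z.2.2.1 = 2 * i ∧ i < z.2.2.2.1)
      (US.of_prim (PrimrecPred.and ?_ ?_))
    · exact Primrec.eq.comp (pm.comp Primrec.fst) (Primrec.nat_mul.comp (Primrec.const 2) Primrec.snd)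
    · exact Primrec.nat_lt.comp Primrec.snd (pk.comp Primrec.fst)
  · refine US.ex (p := fun B (z : Zt) (w : ℕ × List ℕ) =>
      (z.2.2.1 = 2 * Nat.pair w.1 (encode w.2) + 1 ∧ σ.fn w.1 = some w.2.length) ∧
      ∀ i < w.2.length, G B (z.1, (0, w.2.getD i 0, z.2.2.2.1, [], 0)))
      (US.and (US.and (US.of_prim ?_) (US.of_s1 ?_)) ?_)
    · exact Primrec.eq.comp (pm.comp Primrec.fst) (Primrec.succ.comp (Primrec.nat_mul.comp
        (Primrec.const 2) (Primrec₂.natPair.comp (Primrec.fst.comp Primrec.snd)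
          (Primrec.encode.comp (Primrec.snd.comp Primrec.snd)))))
    · exact s1_eq (σ.comp_fn.comp (Computable.fst.comp Computable.snd))
        (Primrec.option_some.comp (Primrec.list_length.comp
          (Primrec.snd.comp Primrec.snd))).to_comp
    · have := us_all hG (α := Zt × ℕ × List ℕ) (e := fun z => z.1.1) (kd := fun _ => 0)
        (k := fun z => z.1.2.2.2.1) (a := fun _ => []) (l := fun z => z.2.2) (ys := fun _ => [])
        (pe.comp Primrec.fst) (Primrec.const 0) (pk.comp Primrec.fst) (Primrec.const [])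
        (Primrec.snd.comp Primrec.snd) (Primrec.const [])
      exact this.of_eq fun B z => by simp

theorem us_U1 (hD : Computable D) (hF : Computable F) (hG : US G) :
    US fun B (z : Zt) => U1 σ D F (fun x => G B (z.1, x)) z.2 := by
  refine US.and (us_valid D hD pa pk) (US.or ?_ ?_)
  · refine US.ex (p := fun _ (z : Zt) (i : ℕ) => z.2.2.1 = 2 * i ∧ i < z.2.2.2.1 ∧
      z.2.2.2.2.1[i]? = some z.2.2.2.2.2) (US.of_prim (PrimrecPred.and ?_ (PrimrecPred.and ?_ ?_)))
    · exact Primrec.eq.comp (pm.comp Primrec.fst) (Primrec.nat_mul.comp (Primrec.const 2) Primrec.snd)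
    · exact Primrec.nat_lt.comp Primrec.snd (pk.comp Primrec.fst)
    · exact Primrec.eq.comp (Primrec.list_getElem?.comp (pa.comp Primrec.fst) Primrec.snd)
        (Primrec.option_some.comp (py.comp Primrec.fst))
  · refine US.ex (p := fun B (z : Zt) (w : ℕ × List ℕ × List ℕ) =>
      (z.2.2.1 = 2 * Nat.pair w.1 (encode w.2.1) + 1 ∧
        w.2.2.length = w.2.1.length) ∧ (σ.fn w.1 = some w.2.1.length ∧
          F (w.1, w.2.2) = z.2.2.2.2.2) ∧
        ∀ i < w.2.1.length, G B (z.1, (1, w.2.1.getD i 0, z.2.2.2.1, z.2.2.2.2.1,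
          w.2.2.getD i 0)))
      (US.and (US.of_prim (PrimrecPred.and ?_ ?_)) (US.and (US.of_s1 (S1.and ?_ ?_)) ?_))
    · exact Primrec.eq.comp (pm.comp Primrec.fst) (Primrec.succ.comp (Primrec.nat_mul.comp
        (Primrec.const 2) (Primrec₂.natPair.comp (Primrec.fst.comp Primrec.snd)
          (Primrec.encode.comp (Primrec.fst.comp (Primrec.snd.comp Primrec.snd))))))
    · exact Primrec.eq.comp
        (Primrec.list_length.comp (Primrec.snd.comp (Primrec.snd.comp Primrec.snd)))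
        (Primrec.list_length.comp (Primrec.fst.comp (Primrec.snd.comp Primrec.snd)))
    · exact s1_eq (σ.comp_fn.comp (Computable.fst.comp Computable.snd))
        (Primrec.option_some.comp (Primrec.list_length.comp
          (Primrec.fst.comp (Primrec.snd.comp Primrec.snd)))).to_comp
    · refine s1_eq (hF.comp (Primrec.to_comp ?_)) (Primrec.to_comp (py.comp Primrec.fst))
      exact (Primrec.fst.comp Primrec.snd).pair (Primrec.snd.comp (Primrec.snd.comp Primrec.snd))
    · exact us_all hG (α := Zt × ℕ × List ℕ × List ℕ) (e := fun z => z.1.1) (kd := fun _ => 1)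
        (k := fun z => z.1.2.2.2.1) (a := fun z => z.1.2.2.2.2.1) (l := fun z => z.2.2.1)
        (ys := fun z => z.2.2.2)
        (pe.comp Primrec.fst) (Primrec.const 1) (pk.comp Primrec.fst) (pa.comp Primrec.fst)
        (Primrec.fst.comp (Primrec.snd.comp Primrec.snd))
        (Primrec.snd.comp (Primrec.snd.comp Primrec.snd))

theorem us_U2 (hG : US G) : US fun B (z : Zt) => U2 σ (fun x => G B (z.1, x)) z.2 := by
  refine US.or (US.of_prim ?_) (US.or ?_ (US.or ?_ (US.or ?_ ?_)))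
  · exact Primrec.eq.comp pm (Primrec.const 0)
  · refine US.ex (p := fun B (z : Zt) (w : ℕ × ℕ) => z.2.2.1 = 4 * Nat.pair w.1 w.2 + 1 ∧
      G B (z.1, (0, w.1, z.2.2.2.1, [], 0)) ∧ G B (z.1, (0, w.2, z.2.2.2.1, [], 0)))
      (US.and (US.of_prim ?_) (US.and ?_ ?_))
    · exact Primrec.eq.comp (pm.comp Primrec.fst) (Primrec.succ.comp (Primrec.nat_mul.comp
        (Primrec.const 4) (Primrec₂.natPair.comp (Primrec.fst.comp Primrec.snd)
          (Primrec.snd.comp Primrec.snd))))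
    · exact hG.comp (f := fun w : Zt × ℕ × ℕ => (w.1.1, (0, w.2.1, w.1.2.2.2.1, [], 0)))
        ((pe.comp Primrec.fst).pair (mkX (Primrec.const 0) (Primrec.fst.comp Primrec.snd)
          (pk.comp Primrec.fst) (Primrec.const []) (Primrec.const 0)))
    · exact hG.comp (f := fun w : Zt × ℕ × ℕ => (w.1.1, (0, w.2.2, w.1.2.2.2.1, [], 0)))
        ((pe.comp Primrec.fst).pair (mkX (Primrec.const 0) (Primrec.snd.comp Primrec.snd)
          (pk.comp Primrec.fst) (Primrec.const []) (Primrec.const 0)))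
  · refine US.ex (p := fun B (z : Zt) (w : ℕ × List ℕ) =>
      (z.2.2.1 = 4 * Nat.pair w.1 (encode w.2) + 2 ∧ σ.rel w.1 = some w.2.length) ∧
      ∀ i < w.2.length, G B (z.1, (0, w.2.getD i 0, z.2.2.2.1, [], 0)))
      (US.and (US.and (US.of_prim ?_) (US.of_s1 ?_)) ?_)
    · exact Primrec.eq.comp (pm.comp Primrec.fst) (Primrec.nat_add.comp (Primrec.nat_mul.comp
        (Primrec.const 4) (Primrec₂.natPair.comp (Primrec.fst.comp Primrec.snd)
          (Primrec.encode.comp (Primrec.snd.comp Primrec.snd)))) (Primrec.const 2))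
    · exact s1_eq (σ.comp_rel.comp (Computable.fst.comp Computable.snd))
        (Primrec.option_some.comp (Primrec.list_length.comp
          (Primrec.snd.comp Primrec.snd))).to_comp
    · have := us_all hG (α := Zt × ℕ × List ℕ) (e := fun z => z.1.1) (kd := fun _ => 0)
        (k := fun z => z.1.2.2.2.1) (a := fun _ => []) (l := fun z => z.2.2) (ys := fun _ => [])
        (pe.comp Primrec.fst) (Primrec.const 0) (pk.comp Primrec.fst) (Primrec.const [])
        (Primrec.snd.comp Primrec.snd) (Primrec.const [])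
      exact this.of_eq fun B z => by simp
  · refine US.ex (p := fun B (z : Zt) (w : ℕ × ℕ) => z.2.2.1 = 4 * Nat.pair w.1 w.2 + 3 ∧
      G B (z.1, (2, w.1, z.2.2.2.1, [], 0)) ∧ G B (z.1, (2, w.2, z.2.2.2.1, [], 0)))
      (US.and (US.of_prim ?_) (US.and ?_ ?_))
    · exact Primrec.eq.comp (pm.comp Primrec.fst) (Primrec.nat_add.comp (Primrec.nat_mul.comp
        (Primrec.const 4) (Primrec₂.natPair.comp (Primrec.fst.comp Primrec.snd)
          (Primrec.snd.comp Primrec.snd))) (Primrec.const 3))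
    · exact hG.comp (f := fun w : Zt × ℕ × ℕ => (w.1.1, (2, w.2.1, w.1.2.2.2.1, [], 0)))
        ((pe.comp Primrec.fst).pair (mkX (Primrec.const 2) (Primrec.fst.comp Primrec.snd)
          (pk.comp Primrec.fst) (Primrec.const []) (Primrec.const 0)))
    · exact hG.comp (f := fun w : Zt × ℕ × ℕ => (w.1.1, (2, w.2.2, w.1.2.2.2.1, [], 0)))
        ((pe.comp Primrec.fst).pair (mkX (Primrec.const 2) (Primrec.snd.comp Primrec.snd)
          (pk.comp Primrec.fst) (Primrec.const []) (Primrec.const 0)))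
  · refine US.ex (p := fun B (z : Zt) (m1 : ℕ) => z.2.2.1 = 4 * m1 + 4 ∧
      G B (z.1, (2, m1, z.2.2.2.1 + 1, [], 0))) (US.and (US.of_prim ?_) ?_)
    · exact Primrec.eq.comp (pm.comp Primrec.fst) (Primrec.nat_add.comp (Primrec.nat_mul.comp
        (Primrec.const 4) Primrec.snd) (Primrec.const 4))
    · exact hG.comp (f := fun w : Zt × ℕ => (w.1.1, (2, w.2, w.1.2.2.2.1 + 1, [], 0)))
        ((pe.comp Primrec.fst).pair (mkX (Primrec.const 2) Primrec.snd
          (Primrec.succ.comp (pk.comp Primrec.fst)) (Primrec.const []) (Primrec.const 0)))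

theorem us_U3 (hD : Computable D) (hR : Computable R) (hG : US G) (hNG : US NG) (hA : US A) :
    US fun B (z : Zt) => U3 σ D R (fun x => G B (z.1, x)) (fun x => NG B (z.1, x))
      (fun x => A B (z.1, x)) z.2 := by
  refine US.and (us_valid D hD pa pk) (US.or ?_ (US.or ?_ (US.or ?_ ?_)))
  · refine US.ex (p := fun B (z : Zt) (w : ℕ × ℕ × ℕ) => z.2.2.1 = 4 * Nat.pair w.1 w.2.1 + 1 ∧
      G B (z.1, (1, w.1, z.2.2.2.1, z.2.2.2.2.1, w.2.2)) ∧
      G B (z.1, (1, w.2.1, z.2.2.2.1, z.2.2.2.2.1, w.2.2)))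
      (US.and (US.of_prim ?_) (US.and ?_ ?_))
    · exact Primrec.eq.comp (pm.comp Primrec.fst) (Primrec.succ.comp (Primrec.nat_mul.comp
        (Primrec.const 4) (Primrec₂.natPair.comp (Primrec.fst.comp Primrec.snd)
          (Primrec.fst.comp (Primrec.snd.comp Primrec.snd)))))
    · exact hG.comp (f := fun w : Zt × ℕ × ℕ × ℕ =>
        (w.1.1, (1, w.2.1, w.1.2.2.2.1, w.1.2.2.2.2.1, w.2.2.2)))
        ((pe.comp Primrec.fst).pair (mkX (Primrec.const 1) (Primrec.fst.comp Primrec.snd)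
          (pk.comp Primrec.fst) (pa.comp Primrec.fst)
          (Primrec.snd.comp (Primrec.snd.comp Primrec.snd))))
    · exact hG.comp (f := fun w : Zt × ℕ × ℕ × ℕ =>
        (w.1.1, (1, w.2.2.1, w.1.2.2.2.1, w.1.2.2.2.2.1, w.2.2.2)))
        ((pe.comp Primrec.fst).pair (mkX (Primrec.const 1)
          (Primrec.fst.comp (Primrec.snd.comp Primrec.snd))
          (pk.comp Primrec.fst) (pa.comp Primrec.fst)
          (Primrec.snd.comp (Primrec.snd.comp Primrec.snd))))
  · refine US.ex (p := fun B (z : Zt) (w : ℕ × List ℕ × List ℕ) =>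
      (z.2.2.1 = 4 * Nat.pair w.1 (encode w.2.1) + 2 ∧
        w.2.2.length = w.2.1.length) ∧ (σ.rel w.1 = some w.2.1.length ∧
          R (w.1, w.2.2) = true) ∧
        ∀ i < w.2.1.length, G B (z.1, (1, w.2.1.getD i 0, z.2.2.2.1, z.2.2.2.2.1,
          w.2.2.getD i 0)))
      (US.and (US.of_prim (PrimrecPred.and ?_ ?_)) (US.and (US.of_s1 (S1.and ?_ ?_)) ?_))
    · exact Primrec.eq.comp (pm.comp Primrec.fst) (Primrec.nat_add.comp (Primrec.nat_mul.comp
        (Primrec.const 4) (Primrec₂.natPair.comp (Primrec.fst.comp Primrec.snd)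
          (Primrec.encode.comp (Primrec.fst.comp (Primrec.snd.comp Primrec.snd)))))
          (Primrec.const 2))
    · exact Primrec.eq.comp
        (Primrec.list_length.comp (Primrec.snd.comp (Primrec.snd.comp Primrec.snd)))
        (Primrec.list_length.comp (Primrec.fst.comp (Primrec.snd.comp Primrec.snd)))
    · exact s1_eq (σ.comp_rel.comp (Computable.fst.comp Computable.snd))
        (Primrec.option_some.comp (Primrec.list_length.comp
          (Primrec.fst.comp (Primrec.snd.comp Primrec.snd)))).to_comp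
    · refine s1_eq (hR.comp (Primrec.to_comp ?_)) (Computable.const true)
      exact (Primrec.fst.comp Primrec.snd).pair (Primrec.snd.comp (Primrec.snd.comp Primrec.snd))
    · exact us_all hG (α := Zt × ℕ × List ℕ × List ℕ) (e := fun z => z.1.1) (kd := fun _ => 1)
        (k := fun z => z.1.2.2.2.1) (a := fun z => z.1.2.2.2.2.1) (l := fun z => z.2.2.1)
        (ys := fun z => z.2.2.2)
        (pe.comp Primrec.fst) (Primrec.const 1) (pk.comp Primrec.fst) (pa.comp Primrec.fst)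
        (Primrec.fst.comp (Primrec.snd.comp Primrec.snd))
        (Primrec.snd.comp (Primrec.snd.comp Primrec.snd))
  · refine US.ex (p := fun B (z : Zt) (w : ℕ × ℕ) => z.2.2.1 = 4 * Nat.pair w.1 w.2 + 3 ∧
      (G B (z.1, (2, w.1, z.2.2.2.1, [], 0)) ∧ G B (z.1, (2, w.2, z.2.2.2.1, [], 0))) ∧
      (NG B (z.1, (3, w.1, z.2.2.2.1, z.2.2.2.2.1, 0)) ∨
        G B (z.1, (3, w.2, z.2.2.2.1, z.2.2.2.2.1, 0))))
      (US.and (US.of_prim ?_) (US.and (US.and ?_ ?_) (US.or ?_ ?_)))
    · exact Primrec.eq.comp (pm.comp Primrec.fst) (Primrec.nat_add.comp (Primrec.nat_mul.comp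
        (Primrec.const 4) (Primrec₂.natPair.comp (Primrec.fst.comp Primrec.snd)
          (Primrec.snd.comp Primrec.snd))) (Primrec.const 3))
    · exact hG.comp (f := fun w : Zt × ℕ × ℕ => (w.1.1, (2, w.2.1, w.1.2.2.2.1, [], 0)))
        ((pe.comp Primrec.fst).pair (mkX (Primrec.const 2) (Primrec.fst.comp Primrec.snd)
          (pk.comp Primrec.fst) (Primrec.const []) (Primrec.const 0)))
    · exact hG.comp (f := fun w : Zt × ℕ × ℕ => (w.1.1, (2, w.2.2, w.1.2.2.2.1, [], 0)))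
        ((pe.comp Primrec.fst).pair (mkX (Primrec.const 2) (Primrec.snd.comp Primrec.snd)
          (pk.comp Primrec.fst) (Primrec.const []) (Primrec.const 0)))
    · exact hNG.comp (f := fun w : Zt × ℕ × ℕ =>
        (w.1.1, (3, w.2.1, w.1.2.2.2.1, w.1.2.2.2.2.1, 0)))
        ((pe.comp Primrec.fst).pair (mkX (Primrec.const 3) (Primrec.fst.comp Primrec.snd)
          (pk.comp Primrec.fst) (pa.comp Primrec.fst) (Primrec.const 0)))
    · exact hG.comp (f := fun w : Zt × ℕ × ℕ =>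
        (w.1.1, (3, w.2.2, w.1.2.2.2.1, w.1.2.2.2.2.1, 0)))
        ((pe.comp Primrec.fst).pair (mkX (Primrec.const 3) (Primrec.snd.comp Primrec.snd)
          (pk.comp Primrec.fst) (pa.comp Primrec.fst) (Primrec.const 0)))
  · refine US.ex (p := fun B (z : Zt) (m1 : ℕ) => z.2.2.1 = 4 * m1 + 4 ∧
      G B (z.1, (2, m1, z.2.2.2.1 + 1, [], 0)) ∧ A B (z.1, (m1, z.2.2.2.1 + 1, z.2.2.2.2.1)))
      (US.and (US.of_prim ?_) (US.and ?_ ?_))
    · exact Primrec.eq.comp (pm.comp Primrec.fst) (Primrec.nat_add.comp (Primrec.nat_mul.comp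
        (Primrec.const 4) Primrec.snd) (Primrec.const 4))
    · exact hG.comp (f := fun w : Zt × ℕ => (w.1.1, (2, w.2, w.1.2.2.2.1 + 1, [], 0)))
        ((pe.comp Primrec.fst).pair (mkX (Primrec.const 2) Primrec.snd
          (Primrec.succ.comp (pk.comp Primrec.fst)) (Primrec.const []) (Primrec.const 0)))
    · exact hA.comp (f := fun w : Zt × ℕ => (w.1.1, (w.2, w.1.2.2.2.1 + 1, w.1.2.2.2.2.1)))
        ((pe.comp Primrec.fst).pair (Primrec.snd.pair
          ((Primrec.succ.comp (pk.comp Primrec.fst)).pair (pa.comp Primrec.fst))))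

theorem us_Unf (hD : Computable D) (hF : Computable F) (hR : Computable R) (hG : US G)
    (hNG : US NG) (hA : US A) :
    US fun B (z : Zt) => Unf σ D F R (fun x => G B (z.1, x)) (fun x => NG B (z.1, x))
      (fun x => A B (z.1, x)) z.2 := by
  have hk : ∀ c : ℕ, US fun _ (z : Zt) => z.2.1 = c := fun c =>
    US.of_prim (Primrec.eq.comp (Primrec.fst.comp Primrec.snd) (Primrec.const c))
  exact US.or (US.and (hk 0) (us_U0 σ hG)) (US.or (US.and (hk 1) (us_U1 σ D F hD hF hG))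
    (US.or (US.and (hk 2) (us_U2 σ hG)) (US.and (hk 3) (us_U3 σ D R hD hR hG hNG hA))))

end eff

end Pool.Agent.J4H74.TW
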