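import Pool.Agent.H685R3.US

set_option autoImplicit false

/-! Effective choice for relations that are Sigma-one in an oracle, and its iteration. -/

namespace Pool.Agent.J4H74.TW

open Encodable
open Pool.Agent.Helper227 Pool.Agent.H685R3

variable {α β : Type} [Primcodable α] [Primcodable β] {Z : ℕ → Bool}

theorem SI_unif {R : α → β → Prop} (hR : SI Z fun x : α × β => R x.1 x.2)
    (tot : ∀ a, ∃ b, R a b) :
    ∃ c : α → β, (∀ a, R a (c a)) ∧ SI Z fun x : α × β => c x.1 = x.2 := by
  classical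
  obtain ⟨E, ⟨q, hq, mq, eq⟩, mE, eE⟩ := hR
  -- the decidable matrix
  let T : List Bool × (α × ℕ) → Bool := fun x =>
    (((decode (α := β × ℕ × ℕ) x.2.2).map
      fun w => decide (q (x.1, (x.2.1, w.1)) w.2.2)).getD false)
  let sl : α × ℕ → ℕ := fun y => ((decode (α := β × ℕ × ℕ) y.2).map fun w => w.2.1).getD 0
  have hT : Primrec T := by
    refine Primrec.option_getD.comp (Primrec.option_map
      (Primrec.decode.comp (Primrec.snd.comp Primrec.snd)) ?_) (Primrec.const false)
    refine Primrec₂.mk ?_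
    have h1 : PrimrecPred fun z : (List Bool × (α × ℕ)) × (β × ℕ × ℕ) =>
        q (z.1.1, (z.1.2.1, z.2.1)) z.2.2.2 := by
      refine PrimrecRel.comp hq ?_ ?_
      · exact (Primrec.fst.comp Primrec.fst).pair
          ((Primrec.fst.comp (Primrec.snd.comp Primrec.fst)).pair (Primrec.fst.comp Primrec.snd))
      · exact Primrec.snd.comp (Primrec.snd.comp Primrec.snd)
    exact h1.decide
  have hsl : Primrec sl := by
    refine Primrec.option_getD.comp (Primrec.option_map
      (Primrec.decode.comp Primrec.snd) ?_) (Primrec.const 0)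
    exact Primrec₂.mk (Primrec.fst.comp (Primrec.snd.comp Primrec.snd))
  let D : α → ℕ → Prop := fun a N => T (pre Z (sl (a, N)), (a, N)) = true
  have hD : SI Z fun y : α × ℕ => D y.1 y.2 :=
    ((US.at_pre (Q := fun x => T x = true) (s := sl)
      (Primrec.eq.comp hT (Primrec.const true)) hsl).toSI Z)
  have hDn : SI Z fun y : α × ℕ => ¬ D y.1 y.2 :=
    ((US.at_pre (Q := fun x => ¬ T x = true) (s := sl)
      (Primrec.eq.comp hT (Primrec.const true)).not hsl).toSI Z)
  have hDw : ∀ a (w : β × ℕ × ℕ), D a (encode w) ↔ q (pre Z w.2.1, (a, w.1)) w.2.2 := by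
    intro a w
    have h : decode (α := β × ℕ × ℕ) (encode w) = some w := encodek w
    have h2 : sl (a, encode w) = w.2.1 := by
      simp only [sl, h, Option.map_some, Option.getD_some]
    simp only [D, T, h2]
    rw [h]
    simp only [Option.map_some, Option.getD_some, decide_eq_true_eq]
  have hDR : ∀ a N, D a N → ∃ w : β × ℕ × ℕ, decode (α := β × ℕ × ℕ) N = some w ∧ R a w.1 := by
    intro a N h
    cases hd : decode (α := β × ℕ × ℕ) N with
    | none =>
      simp only [D, T] at h
      rw [hd] at h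
      simp only [Option.map_none, Option.getD_none] at h
      cases h
    | some w =>
      refine ⟨w, rfl, ?_⟩
      have h2 : sl (a, N) = w.2.1 := by
        simp only [sl, hd, Option.map_some, Option.getD_some]
      simp only [D, T, h2] at h
      rw [hd] at h
      simp only [Option.map_some, Option.getD_some, decide_eq_true_eq] at h
      exact (eE (a, w.1)).2 ⟨w.2.1, (eq _).2 ⟨w.2.2, h⟩⟩
  have hex : ∀ a, ∃ N, D a N := by
    intro a
    obtain ⟨b, hb⟩ := tot a
    obtain ⟨s, hs⟩ := (eE (a, b)).1 hb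
    obtain ⟨n, hn⟩ := (eq _).1 hs
    exact ⟨encode (b, s, n), (hDw a (b, s, n)).2 hn⟩
  have hmin : ∀ a, ∃ w : β × ℕ × ℕ, decode (α := β × ℕ × ℕ) (Nat.find (hex a)) = some w ∧
      R a w.1 := fun a => hDR a _ (Nat.find_spec (hex a))
  choose w hw hwR using hmin
  refine ⟨fun a => (w a).1, hwR, ?_⟩
  have h1 : SI Z fun x : α × β => ∃ N : ℕ, ∃ v : β × ℕ × ℕ,
      (decode (α := β × ℕ × ℕ) N = some v ∧ v.1 = x.2) ∧ (D x.1 N ∧ ∀ N' < N, ¬ D x.1 N') := by
    refine SI.ex (p := fun (x : α × β) (N : ℕ) => ∃ v : β × ℕ × ℕ,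
      (decode (α := β × ℕ × ℕ) N = some v ∧ v.1 = x.2) ∧ (D x.1 N ∧ ∀ N' < N, ¬ D x.1 N'))
      (SI.ex (p := fun (y : (α × β) × ℕ) (v : β × ℕ × ℕ) =>
        (decode (α := β × ℕ × ℕ) y.2 = some v ∧ v.1 = y.1.2) ∧
          (D y.1.1 y.2 ∧ ∀ N' < y.2, ¬ D y.1.1 N')) (SI.and (SI.of_prim ?_) (SI.and ?_ ?_)))
    · refine PrimrecPred.and ?_ ?_
      · exact Primrec.eq.comp (Primrec.decode.comp (Primrec.snd.comp Primrec.fst))
          (Primrec.option_some.comp Primrec.snd)
      · exact Primrec.eq.comp (Primrec.fst.comp Primrec.snd)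
          (Primrec.snd.comp (Primrec.fst.comp Primrec.fst))
    · exact hD.comp (f := fun z : ((α × β) × ℕ) × (β × ℕ × ℕ) => (z.1.1.1, z.1.2))
        ((Primrec.fst.comp (Primrec.fst.comp Primrec.fst)).pair (Primrec.snd.comp Primrec.fst))
    · refine SI.all_lt (α := ((α × β) × ℕ) × (β × ℕ × ℕ)) (p := fun z N' => ¬ D z.1.1.1 N')
        (f := fun z => z.1.2) ?_ (Primrec.snd.comp Primrec.fst)
      exact hDn.comp (f := fun z : (((α × β) × ℕ) × (β × ℕ × ℕ)) × ℕ => (z.1.1.1.1, z.2))
        ((Primrec.fst.comp (Primrec.fst.comp (Primrec.fst.comp Primrec.fst))).pair Primrec.snd)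
  refine h1.of_eq fun x => ?_
  constructor
  · rintro ⟨N, v, ⟨h2, h3⟩, h4, h5⟩
    have h6 : Nat.find (hex x.1) = N := by
      refine le_antisymm (Nat.find_min' _ h4) ?_
      by_contra hc
      exact h5 _ (not_le.1 hc) (Nat.find_spec (hex x.1))
    have h7 := hw x.1
    rw [h6, h2] at h7
    rw [← h3]
    exact (congrArg Prod.fst (Option.some.inj h7)).symm
  · intro h
    exact ⟨Nat.find (hex x.1), w x.1, ⟨hw x.1, h⟩, Nat.find_spec (hex x.1),
      fun N' hN' => Nat.find_min (hex x.1) hN'⟩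

/-- Iteration of a function computable in the oracle. -/
theorem SI_iter {c : ℕ × β → β} (hc : SI Z fun x : (ℕ × β) × β => c x.1 = x.2) (b₀ : β)
    {f : ℕ → β} (h0 : f 0 = b₀) (hs : ∀ n, f (n + 1) = c (n, f n)) :
    SI Z fun x : ℕ × β => f x.1 = x.2 := by
  have h1 : SI Z fun x : ℕ × β => ∃ L : List β, (L.length = x.1 + 1 ∧ L[0]? = some b₀ ∧
      L[x.1]? = some x.2) ∧ ∀ i < x.1, ∃ y : β × β, (L[i]? = some y.1 ∧ L[i + 1]? = some y.2) ∧
        c (i, y.1) = y.2 := by
    refine SI.ex (p := fun (x : ℕ × β) (L : List β) => (L.length = x.1 + 1 ∧ L[0]? = some b₀ ∧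
      L[x.1]? = some x.2) ∧ ∀ i < x.1, ∃ y : β × β, (L[i]? = some y.1 ∧ L[i + 1]? = some y.2) ∧
        c (i, y.1) = y.2) (SI.and (SI.of_prim ?_) ?_)
    · refine PrimrecPred.and ?_ (PrimrecPred.and ?_ ?_)
      · exact Primrec.eq.comp (Primrec.list_length.comp Primrec.snd)
          (Primrec.succ.comp (Primrec.fst.comp Primrec.fst))
      · exact Primrec.eq.comp (Primrec.list_getElem?.comp Primrec.snd (Primrec.const 0))
          (Primrec.const (some b₀))
      · exact Primrec.eq.comp (Primrec.list_getElem?.comp Primrec.snd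
          (Primrec.fst.comp Primrec.fst)) (Primrec.option_some.comp (Primrec.snd.comp Primrec.fst))
    · refine SI.all_lt (α := (ℕ × β) × List β) (p := fun z i => ∃ y : β × β,
        (z.2[i]? = some y.1 ∧ z.2[i + 1]? = some y.2) ∧ c (i, y.1) = y.2)
        (f := fun z => z.1.1) ?_ (Primrec.fst.comp Primrec.fst)
      refine SI.ex (p := fun (w : ((ℕ × β) × List β) × ℕ) (y : β × β) =>
        (w.1.2[w.2]? = some y.1 ∧ w.1.2[w.2 + 1]? = some y.2) ∧ c (w.2, y.1) = y.2)
        (SI.and (SI.of_prim (PrimrecPred.and ?_ ?_)) ?_)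
      · exact Primrec.eq.comp (Primrec.list_getElem?.comp
          (Primrec.snd.comp (Primrec.fst.comp Primrec.fst)) (Primrec.snd.comp Primrec.fst))
          (Primrec.option_some.comp (Primrec.fst.comp Primrec.snd))
      · exact Primrec.eq.comp (Primrec.list_getElem?.comp
          (Primrec.snd.comp (Primrec.fst.comp Primrec.fst))
          (Primrec.succ.comp (Primrec.snd.comp Primrec.fst)))
          (Primrec.option_some.comp (Primrec.snd.comp Primrec.snd))
      · exact hc.comp (f := fun v : (((ℕ × β) × List β) × ℕ) × (β × β) =>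
          ((v.1.2, v.2.1), v.2.2)) (((Primrec.snd.comp Primrec.fst).pair
            (Primrec.fst.comp Primrec.snd)).pair (Primrec.snd.comp Primrec.snd))
  refine h1.of_eq fun x => ?_
  constructor
  · rintro ⟨L, ⟨hl, h2, h3⟩, h4⟩
    have h5 : ∀ i ≤ x.1, L[i]? = some (f i) := by
      intro i
      induction i with
      | zero => intro _; rw [h0]; exact h2
      | succ i ih =>
        intro hi
        obtain ⟨y, ⟨h6, h7⟩, h8⟩ := h4 i (by omega)
        rw [ih (by omega)] at h6
        rw [h7, ← h8, hs, Option.some.inj h6]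
    have h6 := h5 x.1 le_rfl
    rw [h3] at h6
    exact (Option.some.inj h6).symm
  · intro h
    refine ⟨(List.range (x.1 + 1)).map f, ⟨by simp, by simp [h0], by simp [h]⟩, ?_⟩
    intro i hi
    refine ⟨(f i, f (i + 1)), ⟨?_, ?_⟩, (hs i).symm⟩
    · simp [List.getElem?_map, List.getElem?_range (show i < x.1 + 1 by omega)]
    · simp [List.getElem?_map, List.getElem?_range (show i + 1 < x.1 + 1 by omega)]

end Pool.Agent.J4H74.TW
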